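import Pool.Agent.Lib.MP_994fee_co.TwT.Plus19
import Pool.Agent.Lib.MP_994fee_co.TwB.Game19
import Pool.Agent.Lib.MP_994fee_co.Two.Frame

/-!
# Torsos of bounded degree: rows
-/

namespace Pool.Agent.Lib.MP_994fee_co.TwT

open Finset TwB

/-- The structure on a set of vertices. -/
def TorsoOn {V : Type} (n : ℕ) (G : SimpleGraph V) (S : Finset V) : Prop :=
  ∃ (β : V → ℕ) (P : ℕ → Finset ℕ) (T : SimpleGraph ℕ) (ρ : ℕ → ℕ) (B : Finset ℕ),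
    (∀ v ∈ S, β v ∈ B) ∧
    (∀ i, ∀ j ∈ P i, j < i) ∧ (∀ i ∈ B, P i ⊆ B) ∧ (∀ i, (P i).card ≤ 2) ∧
    (∀ i, ∀ j ∈ P i, ∀ k ∈ P i, j < k → j ∈ P k ∨ T.Adj j k) ∧
    (∀ i j, T.Adj i j → P i = P j) ∧ (∀ i, ∀ W : Finset ℕ, (∀ j ∈ W, T.Adj i j) → W.card ≤ n) ∧
    (∀ i, ∀ W ⊆ S, (∀ v ∈ W, β v = i) → W.card ≤ n) ∧ (∀ i, ρ i < n) ∧
    (∀ v ∈ S, ∀ w ∈ S, G.Adj v w → β v = β w ∨ β v ∈ P (β w) ∨ β w ∈ P (β v) ∨
      T.Adj (β v) (β w) ∨ (P (β v) = P (β w) ∧ ρ (β v) ≠ ρ (β w))) ∧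
    ∀ i, ∀ W : Finset ℕ, (∀ j ∈ W, P j = P i ∧ ρ j < ρ i ∧
      ∃ v ∈ S, ∃ w ∈ S, G.Adj v w ∧ β v = i ∧ β w = j) → W.card ≤ n

/-- Apart from its own colours, the block `v` cannot distinguish the states `σ` and `σ'`. -/
def LocT {n : ℕ} (P : ℕ → Finset ℕ) (E R : ℕ → ℕ → Prop) (A : Finset ℕ) (v : ℕ)
    (σ σ' : St ℕ n) : Prop :=
  σ.N v = σ'.N v ∧ (∀ u ∈ A, (u ∈ P v ∨ v ∈ P u ∨ E v u) →
    σ.c u = σ'.c u ∧ σ.b v u = σ'.b v u ∧ σ.b u v = σ'.b u v) ∧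
    ∀ u ∈ A, R v u → σ.c u = σ'.c u

/-- The sizes of the lists and of the label boxes are right. -/
def GoodT {n : ℕ} (P : ℕ → Finset ℕ) (E : ℕ → ℕ → Prop) (L M q : ℕ) (A : Finset ℕ)
    (σ : St ℕ n) : Prop :=
  (∀ v ∈ A, ∀ k, σ.c v k ∈ σ.N v k ∧ (σ.N v k).card = L ∧ σ.c v k < q) ∧
    ∀ u ∈ A, ∀ v ∈ A, (u ∈ P v ∨ v ∈ P u ∨ E u v) →
      ∀ k, σ.N u k ⊆ σ.b u v k ∧ (σ.b u v k).card ≤ M

/-- The strategy of the block vertices is local on `A`. -/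
def LocStrT {n : ℕ} (P : ℕ → Finset ℕ) (E R : ℕ → ℕ → Prop) (A : Finset ℕ)
    (h : ℕ → St ℕ n → Fin n → Finset ℕ) : Prop :=
  ∀ v ∈ A, ∀ k σ σ', LocT P E R A v σ σ' → (∀ j, j ≠ k → σ.c v j = σ'.c v j) → h v σ k = h v σ' k

/-- The players are beaten on `A`. -/
def BeatT (P : ℕ → Finset ℕ) (E R : ℕ → ℕ → Prop) (n s L M q : ℕ) (A : Finset ℕ) : Prop :=
  ∀ h : ℕ → St ℕ n → Fin n → Finset ℕ, LocStrT P E R A h → (∀ v σ k, (h v σ k).card ≤ s) →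
    ∃ σ, GoodT P E L M q A σ ∧ ∀ v ∈ A, ∀ k, σ.c v k ∉ h v σ k

/-- ROW G: elimination of a group of blocks with the same parents. -/
def RowG : Prop := ∀ n s : ℕ, ∃ M q : ℕ, 0 < q ∧ ∀ (P : ℕ → Finset ℕ) (E R : ℕ → ℕ → Prop)
    (ρ : ℕ → ℕ) (A Z P0 : Finset ℕ), Disjoint A Z → P0 ⊆ A → P0.card ≤ 2 →
    (∀ i j, E i j → E j i) → (∀ i, ¬ E i i) →
    (∀ z ∈ Z, P z = P0) → (∀ j ∈ P0, ∀ k ∈ P0, j < k → j ∈ P k ∨ E j k) →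
    (∀ z ∈ Z, ∀ u ∈ A ∪ Z, z ∉ P u) → (∀ z ∈ Z, ∀ u ∈ A, ¬ R z u ∧ ¬ R u z ∧ ¬ E z u) →
    (∀ z ∈ Z, ∀ W ⊆ Z, (∀ u ∈ W, E z u) → W.card ≤ n) →
    (∀ z ∈ Z, ρ z < n) → (∀ z ∈ Z, ∀ u ∈ Z, R z u → ρ z ≠ ρ u) →
    (∀ z ∈ Z, ∀ W ⊆ Z, (∀ u ∈ W, R z u ∧ ρ u < ρ z) → W.card ≤ n) →
    BeatT P E R n s (n * s + 1) M q A → BeatT P E R n s (n * s + 1) M q (A ∪ Z)

/-- ROW O: the structure implies that the players lose. -/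
def RowO : Prop := ∀ n s : ℕ, ∃ q : ℕ, 0 < q ∧ ∀ {V : Type} (G : SimpleGraph V) (S : Finset V),
    TorsoOn n G S → TL.LosesOn G S s q

/-! ### The selection of colours in a group -/

/-- the guesses of one block: labels to the two parents, label to the siblings, list, colours -/
abbrev Gs (n : ℕ) := Bx n → Bx n → Bx n → Bx n → (Fin n → ℕ) → Fin n → Finset ℕ

/-- The guesses are small and no vertex sees its own colour. -/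
def GsOK {n : ℕ} (s : ℕ) (g : Gs n) : Prop :=
  (∀ A B V N f k, (g A B V N f k).card ≤ s) ∧
    ∀ A B V N f f' k, (∀ j, j ≠ k → f j = f' j) → g A B V N f k = g A B V N f' k

/-- what is seen of the siblings: colours and labels -/
abbrev Dt (n : ℕ) := ℕ → (Fin n → ℕ) × Bx n

/-- The guesses of `z` depend only on what `z` sees of its siblings. -/
def Dep {n : ℕ} (Z : Finset ℕ) (E R : ℕ → ℕ → Prop) (z : ℕ) (κ : Dt n → Gs n) : Prop :=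
  ∀ D D' : Dt n, (∀ u ∈ Z, E z u → D u = D' u) → (∀ u ∈ Z, R z u → (D u).1 = (D' u).1) →
    κ D = κ D'

/-- The group of siblings: `E` symmetric of degree at most `d`, ranks below `r`, adjacent siblings
have different ranks, at most `r` adjacent siblings of smaller rank. -/
def Grp (d r : ℕ) (Z : Finset ℕ) (E R : ℕ → ℕ → Prop) (ρ : ℕ → ℕ) : Prop :=
  (∀ i j, E i j → E j i) ∧ (∀ z ∈ Z, ∀ W ⊆ Z, (∀ u ∈ W, E z u) → W.card ≤ d) ∧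
    (∀ z ∈ Z, ρ z < r) ∧ (∀ z ∈ Z, ∀ u ∈ Z, E z u ∨ R z u → ρ z ≠ ρ u) ∧
    ∀ z ∈ Z, ∀ W ⊆ Z, (∀ u ∈ W, (E z u ∨ R z u) ∧ ρ u < ρ z) → W.card ≤ r

/-- ROW SU: selection, with the colours of the parents. -/
def RowSU : Prop := ∀ n s d r : ℕ, ∃ M q : ℕ, n * s + 1 < M ∧ 0 < q ∧
    ∀ (Z : Finset ℕ) (E R : ℕ → ℕ → Prop) (ρ : ℕ → ℕ), Grp d r Z E R ρ →
    ∀ (T S : Bx n), (∀ k, (T k).card ≤ M) → (∀ k, (S k).card ≤ M) →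
    ∀ κ : ℕ → (Fin n → ℕ) → (Fin n → ℕ) → Dt n → Gs n,
    (∀ z ∈ Z, ∀ τ c D, GsOK s (κ z τ c D)) → (∀ z ∈ Z, ∀ τ c, Dep Z E R z (κ z τ c)) →
    ∃ (f : ℕ → Fin n → ℕ) (V : ℕ → (Fin n → ℕ) → (Fin n → ℕ) → Bx n)
      (A : ℕ → Bx n → (Fin n → ℕ) → Bx n) (B : ℕ → (Fin n → ℕ) → Bx n → Bx n)
      (N : ℕ → (Fin n → ℕ) → Bx n → (Fin n → ℕ) → Bx n → Bx n), ∀ z ∈ Z,
      (∀ k, f z k < q) ∧ (∀ Q c k, (A z Q c k).card ≤ M) ∧ (∀ τ Q k, (B z τ Q k).card ≤ M) ∧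
      (∀ τ c k, (V z τ c k).card ≤ M) ∧
      ∀ τ Q c Q', (∀ k, τ k ∈ Q k) → (∀ k, c k ∈ Q' k) → (∀ k, Q k ⊆ T k) → (∀ k, Q' k ⊆ S k) →
        (∀ k, (Q k).card = n * s + 1) → (∀ k, (Q' k).card = n * s + 1) →
        (∀ k, f z k ∈ N z τ Q c Q' k ∧ (N z τ Q c Q' k).card = n * s + 1 ∧
          N z τ Q c Q' k ⊆ A z Q c k ∧ N z τ Q c Q' k ⊆ B z τ Q' k ∧
          N z τ Q c Q' k ⊆ V z τ c k) ∧
        ∀ k, f z k ∉ κ z τ c (fun u => (f u, V u τ c)) (A z Q c) (B z τ Q') (V z τ c)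
          (N z τ Q c Q') (f z) k

/-- ROW SC: selection, with codes for the colours of the parents. -/
def RowSC : Prop := ∀ n s d r : ℕ, ∃ M q : ℕ, n * s + 1 < M ∧ 0 < q ∧
    ∀ (Z : Finset ℕ) (E R : ℕ → ℕ → Prop) (ρ : ℕ → ℕ), Grp d r Z E R ρ →
    ∀ κ : ℕ → Fin (M ^ n) → Fin (M ^ n) → Dt n → Gs n,
    (∀ z ∈ Z, ∀ τ c D, GsOK s (κ z τ c D)) → (∀ z ∈ Z, ∀ τ c, Dep Z E R z (κ z τ c)) →
    ∃ (f : ℕ → Fin n → ℕ) (V : ℕ → Fin (M ^ n) → Fin (M ^ n) → Bx n)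
      (A : ℕ → Finset (Fin (M ^ n)) → Fin (M ^ n) → Bx n)
      (B : ℕ → Fin (M ^ n) → Finset (Fin (M ^ n)) → Bx n)
      (N : ℕ → Fin (M ^ n) → Finset (Fin (M ^ n)) → Fin (M ^ n) → Finset (Fin (M ^ n)) → Bx n),
      ∀ z ∈ Z,
      (∀ k, f z k < q) ∧ (∀ Q c k, (A z Q c k).card ≤ M) ∧ (∀ τ Q k, (B z τ Q k).card ≤ M) ∧
      (∀ τ c k, (V z τ c k).card ≤ M) ∧
      ∀ τ Q c Q', τ ∈ Q → c ∈ Q' → Q.card ≤ (n * s + 1) ^ n → Q'.card ≤ (n * s + 1) ^ n →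
        (∀ k, f z k ∈ N z τ Q c Q' k ∧ (N z τ Q c Q' k).card = n * s + 1 ∧
          N z τ Q c Q' k ⊆ A z Q c k ∧ N z τ Q c Q' k ⊆ B z τ Q' k ∧
          N z τ Q c Q' k ⊆ V z τ c k) ∧
        ∀ k, f z k ∉ κ z τ c (fun u => (f u, V u τ c)) (A z Q c) (B z τ Q') (V z τ c)
          (N z τ Q c Q') (f z) k

/-- the box of real colours of a box of positions -/
def rl {n : ℕ} (M : ℕ) (p : ℕ → ℕ) (X : Bx n) : Bx n := fun k => (X k).image (fun r => p (pos M k r))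

/-- the same for a shifted box of positions -/
def rls {n : ℕ} (M : ℕ) (p : ℕ → ℕ) (X : Bx n) (t : Fin n → ℕ) : Bx n :=
  fun k => (X k).image (fun r => p (pos M k (r + t k)))

/-- the window with index `i` -/
def AI (M i : ℕ) : Finset ℕ := Ico (M - i) (2 * M - i)

/-- The guesses are invariant under separate shifts along `p`. -/
def Hom {n : ℕ} (M : ℕ) (g : Gs n) (p : ℕ → ℕ) : Prop :=
  ∀ (X Y W N : Bx n) (f t : Fin n → ℕ) (k : Fin n), (∀ k, X k ⊆ range (2 * M + 1)) →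
    (∀ k, Y k ⊆ range (2 * M + 1)) → (∀ k, W k ⊆ range (2 * M + 1)) →
    (∀ k, N k ⊆ range (2 * M + 1)) → (∀ k, f k ∈ N k) → (∀ k, t k ≤ M + 1) →
    (p (pos M k (f k + t k)) ∈ g (rls M p X t) (rls M p Y t) (rls M p W t) (rls M p N t)
        (fun k => p (pos M k (f k + t k))) k ↔
      p (pos M k (f k)) ∈ g (rl M p X) (rl M p Y) (rl M p W) (rl M p N)
        (fun k => p (pos M k (f k))) k)

/-- ROW F: a finite palette for finitely many guess functions. -/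
def RowF : Prop := ∀ n M θ : ℕ, ∃ q : ℕ, ∀ g : Fin θ → Gs n, ∃ p : ℕ → ℕ, StrictMono p ∧
    (∀ j < n * (4 * M + 4), p j < q) ∧ ∀ i, Hom M (g i) p

/-- what is seen of the siblings with positions `p` and windows `v` -/
def dat {n : ℕ} (M : ℕ) (p : ℕ → ℕ → ℕ) (v : ℕ → Fin n → ℕ) : Dt n :=
  fun u => (fun k => p u (pos M k M), rl M (p u) (fun k => AI M (v u k)))

/-- ROW P: positions for all blocks of a group. -/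
def RowP : Prop := ∀ n M K d r : ℕ, ∃ q : ℕ, ∀ (Z : Finset ℕ) (E R : ℕ → ℕ → Prop) (ρ : ℕ → ℕ),
    Grp d r Z E R ρ → ∀ κ : ℕ → Fin K → Fin K → Dt n → Gs n,
    (∀ z ∈ Z, ∀ τ c, Dep Z E R z (κ z τ c)) →
    ∃ p : ℕ → ℕ → ℕ, (∀ z, StrictMono (p z)) ∧ (∀ z ∈ Z, ∀ j < n * (4 * M + 4), p z j < q) ∧
      ∀ z ∈ Z, ∀ τ c, ∀ v : ℕ → Fin n → ℕ, (∀ u k, v u k < M) →
        Hom M (κ z τ c (dat M p v)) (p z)

/-- ROW H: the local choice (Lovasz). -/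
def RowH : Prop := ∀ {I : Type} [Fintype I] [Nonempty I] (d : ℕ) (Z : Finset ℕ)
    (E : ℕ → ℕ → Prop), (∀ i j, E i j → E j i) →
    (∀ z ∈ Z, ∀ W ⊆ Z, (∀ u ∈ W, E z u) → W.card ≤ d) →
    ∀ Bad : ℕ → (ℕ → I) → Prop,
    (∀ z ∈ Z, ∀ v v' : ℕ → I, v z = v' z → (∀ u ∈ Z, E z u → v u = v' u) → Bad z v → Bad z v') →
    (∀ z ∈ Z, ∀ v : ℕ → I, ∀ F : Finset I, (∀ i ∈ F, Bad z (Function.update v z i)) →
      2 ^ (d + 1) * F.card ≤ Fintype.card I) →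
    ∃ v : ℕ → I, ∀ z ∈ Z, ¬ Bad z v

/-- The windows `i`, `j` (parents) and `v` (siblings) are bad. -/
def BadW {n : ℕ} (L M : ℕ) (g : Gs n) (p : ℕ → ℕ) (i j v : Fin n → Fin M) : Prop :=
  ∀ N : Bx n, (∀ k, N k ⊆ AI M (i k) ∧ N k ⊆ AI M (j k) ∧ N k ⊆ AI M (v k) ∧
      (N k).card = L ∧ M ∈ N k) →
    ∃ k, p (pos M k M) ∈ g (rl M p (fun k => AI M (i k))) (rl M p (fun k => AI M (j k)))
      (rl M p (fun k => AI M (v k))) (rl M p N) (fun k => p (pos M k M)) k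

/-- ROW B: there are few bad triples of windows. -/
def RowB : Prop := ∀ n s L M D : ℕ, n * s < L →
    (∀ F : Finset (Fin n → Fin M), ¬ HasBox L (fun x => x ∈ F) → F.card ≤ D) →
    ∀ (g : Gs n) (p : ℕ → ℕ), GsOK s g → StrictMono p → Hom M g p →
    ∀ F : Finset ((Fin n → Fin M) × (Fin n → Fin M) × (Fin n → Fin M)),
      (∀ x ∈ F, BadW L M g p x.1 x.2.1 x.2.2) → F.card ≤ D * ((2 * M) ^ n) ^ 2

/-- ROW N: the numbers. -/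
def RowN : Prop := ∀ n L d : ℕ, ∃ M D B r : ℕ, L < M ∧
    (M ^ n) ^ 2 * (L ^ n * r + 1) ^ (2 * r) * B ^ r < (M ^ n) ^ (2 * r) ∧
    2 ^ (d + 1) * (D * ((2 * M) ^ n) ^ 2) ≤ (B + 1) * M ^ n ∧
    ∀ F : Finset (Fin n → Fin M), ¬ HasBox L (fun x => x ∈ F) → F.card ≤ D

end Pool.Agent.Lib.MP_994fee_co.TwT
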