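import Pool.Agent.Lib.MP_994fee_co.TwT.Defs19
import Pool.Agent.Lib.MP_994fee_co.TwB.Shift75

/-!
# Row F: a finite palette for finitely many guess functions
-/

namespace Pool.Agent.Lib.MP_994fee_co.TwT

open Finset TwB

/-- the infinite form with four boxes -/
theorem exists_shiftT75 {n M : ℕ} {Cd : Type} [Finite Cd] (κ : Cd → Gs n) :
    ∃ p : ℕ → ℕ, StrictMono p ∧ ∀ cd : Cd, Hom M (κ cd) p := by
  classical
  have i1 : Finite ((Fin n → Fin (2 * M + 1)) → Fin n → Prop) := inferInstance
  have i2 : Finite ((Fin n → Finset (Fin (2 * M + 1))) →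
      (Fin n → Fin (2 * M + 1)) → Fin n → Prop) := Pi.finite
  have i3 : Finite ((Fin n → Finset (Fin (2 * M + 1))) → (Fin n → Finset (Fin (2 * M + 1))) →
      (Fin n → Fin (2 * M + 1)) → Fin n → Prop) := Pi.finite
  have i4 : Finite ((Fin n → Finset (Fin (2 * M + 1))) → (Fin n → Finset (Fin (2 * M + 1))) →
      (Fin n → Finset (Fin (2 * M + 1))) →
      (Fin n → Fin (2 * M + 1)) → Fin n → Prop) := Pi.finite
  have i5 : Finite ((Fin n → Finset (Fin (2 * M + 1))) → (Fin n → Finset (Fin (2 * M + 1))) →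
      (Fin n → Finset (Fin (2 * M + 1))) → (Fin n → Finset (Fin (2 * M + 1))) →
      (Fin n → Fin (2 * M + 1)) → Fin n → Prop) := Pi.finite
  have i6 : Finite (Cd → (Fin n → Finset (Fin (2 * M + 1))) →
      (Fin n → Finset (Fin (2 * M + 1))) →
      (Fin n → Finset (Fin (2 * M + 1))) → (Fin n → Finset (Fin (2 * M + 1))) →
      (Fin n → Fin (2 * M + 1)) → Fin n → Prop) := Pi.finite
  obtain ⟨p, hp, h⟩ := stRamsey
    (fun _ => Cd → (Fin n → Finset (Fin (2 * M + 1))) → (Fin n → Finset (Fin (2 * M + 1))) →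
      (Fin n → Finset (Fin (2 * M + 1))) → (Fin n → Finset (Fin (2 * M + 1))) →
      (Fin n → Fin (2 * M + 1)) → Fin n → Prop)
    (fun _ => i6)
    (fun m u cd X Y W N f k => ev75 u (k * (2 * M + 1) + (f k : ℕ)) ∈ κ cd
      (fun k => (X k).image (fun r : Fin (2 * M + 1) => ev75 u (k * (2 * M + 1) + (r : ℕ))))
      (fun k => (Y k).image (fun r : Fin (2 * M + 1) => ev75 u (k * (2 * M + 1) + (r : ℕ))))
      (fun k => (W k).image (fun r : Fin (2 * M + 1) => ev75 u (k * (2 * M + 1) + (r : ℕ))))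
      (fun k => (N k).image (fun r : Fin (2 * M + 1) => ev75 u (k * (2 * M + 1) + (r : ℕ))))
      (fun k => ev75 u (k * (2 * M + 1) + (f k : ℕ))) k) (n * (2 * M + 1))
  refine ⟨p, hp, ?_⟩
  intro cd X Y W N f t k hX hY hW hN hfN ht
  have hf : ∀ k, f k < 2 * M + 1 := fun k => mem_range.1 (hN k (hfN k))
  have h1 := h _ le_rfl (tup75 n M t) (tup75 n M fun _ => 0) (tup75_strictMono n M t ht)
    (tup75_strictMono n M _ fun _ => Nat.zero_le _)
  have h2 := congrFun (congrFun (congrFun (congrFun (congrFun (congrFun (congrFun h1 cd)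
    (fun k => univ.filter (fun r : Fin (2 * M + 1) => (r : ℕ) ∈ X k)))
    (fun k => univ.filter (fun r : Fin (2 * M + 1) => (r : ℕ) ∈ Y k)))
    (fun k => univ.filter (fun r : Fin (2 * M + 1) => (r : ℕ) ∈ W k)))
    (fun k => univ.filter (fun r : Fin (2 * M + 1) => (r : ℕ) ∈ N k)))
    (fun k => ⟨f k, hf k⟩)) k
  have eX := fun t => funext fun k => image75 n M p t X hX k
  have eY := fun t => funext fun k => image75 n M p t Y hY k
  have eW := fun t => funext fun k => image75 n M p t W hW k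
  have eN := fun t => funext fun k => image75 n M p t N hN k
  have ef := fun t => funext fun k => ev75_tup n M p t k (f k) (hf k)
  have efk := fun t => ev75_tup n M p t k (f k) (hf k)
  simp only [eX, eY, eW, eN, ef, efk] at h2
  exact iff_of_eq h2

/-- ROW F -/
theorem rowF75 : RowF := by
  classical
  intro n M θ
  by_contra hcon
  push Not at hcon
  choose Ga hG using hcon
  let U : Ultrafilter ℕ := Filter.hyperfilter ℕ
  let g : Fin θ → Gs n := fun i A B V N f k =>
    (N k).filter (fun x => ∀ᶠ q in (U : Filter ℕ), x ∈ Ga q i A B V N f k)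
  obtain ⟨p, hp, hh⟩ := exists_shiftT75 (M := M) g
  have hU : ∀ m : ℕ, ∀ᶠ q in (U : Filter ℕ), m < q := by
    intro m
    have h3 : (Filter.hyperfilter ℕ : Filter ℕ) ≤ Filter.atTop := by
      rw [← Nat.cofinite_eq_atTop]
      exact Filter.hyperfilter_le_cofinite
    have h4 : ∀ᶠ q in (Filter.atTop : Filter ℕ), m < q := by
      filter_upwards [Filter.eventually_gt_atTop m] with q hq
      exact hq
    exact h3 h4
  let SX : Finset (Fin n → Finset ℕ) := Fintype.piFinset fun _ => (range (2 * M + 1)).powerset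
  let Sf : Finset (Fin n → ℕ) := Fintype.piFinset fun _ => range (2 * M + 1)
  let St : Finset (Fin n → ℕ) := Fintype.piFinset fun _ => range (M + 2)
  have e1 : ∀ᶠ q in (U : Filter ℕ), ∀ i : Fin θ, ∀ X ∈ SX, ∀ Y ∈ SX, ∀ W ∈ SX, ∀ N ∈ SX,
      ∀ f ∈ Sf, ∀ t ∈ St, ∀ k : Fin n,
      (p (pos M k (f k + t k)) ∈ Ga q i (rls M p X t) (rls M p Y t) (rls M p W t) (rls M p N t)
        (fun k => p (pos M k (f k + t k))) k ↔ ∀ᶠ q' in (U : Filter ℕ),
        p (pos M k (f k + t k)) ∈ Ga q' i (rls M p X t) (rls M p Y t) (rls M p W t)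
          (rls M p N t) (fun k => p (pos M k (f k + t k))) k) := by
    rw [Filter.eventually_all]
    intro i
    rw [Filter.eventually_all_finset]
    intro X _
    rw [Filter.eventually_all_finset]
    intro Y _
    rw [Filter.eventually_all_finset]
    intro W _
    rw [Filter.eventually_all_finset]
    intro N _
    rw [Filter.eventually_all_finset]
    intro f _
    rw [Filter.eventually_all_finset]
    intro t _
    rw [Filter.eventually_all]
    intro k
    by_cases h : ∀ᶠ q' in (U : Filter ℕ),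
        p (pos M k (f k + t k)) ∈ Ga q' i (rls M p X t) (rls M p Y t) (rls M p W t)
          (rls M p N t) (fun k => p (pos M k (f k + t k))) k
    · filter_upwards [h] with q hq
      exact ⟨fun _ => h, fun _ => hq⟩
    · have h' := Ultrafilter.eventually_not.2 h
      filter_upwards [h'] with q hq
      exact ⟨fun h1 => absurd h1 hq, fun h1 => absurd h1 h⟩
  have e2 : ∀ᶠ q in (U : Filter ℕ), ∀ i : Fin θ, ∀ X ∈ SX, ∀ Y ∈ SX, ∀ W ∈ SX, ∀ N ∈ SX,
      ∀ f ∈ Sf, ∀ k : Fin n,
      (p (pos M k (f k)) ∈ Ga q i (rl M p X) (rl M p Y) (rl M p W) (rl M p N)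
        (fun k => p (pos M k (f k))) k ↔ ∀ᶠ q' in (U : Filter ℕ),
        p (pos M k (f k)) ∈ Ga q' i (rl M p X) (rl M p Y) (rl M p W)
          (rl M p N) (fun k => p (pos M k (f k))) k) := by
    rw [Filter.eventually_all]
    intro i
    rw [Filter.eventually_all_finset]
    intro X _
    rw [Filter.eventually_all_finset]
    intro Y _
    rw [Filter.eventually_all_finset]
    intro W _
    rw [Filter.eventually_all_finset]
    intro N _
    rw [Filter.eventually_all_finset]
    intro f _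
    rw [Filter.eventually_all]
    intro k
    by_cases h : ∀ᶠ q' in (U : Filter ℕ),
        p (pos M k (f k)) ∈ Ga q' i (rl M p X) (rl M p Y) (rl M p W)
          (rl M p N) (fun k => p (pos M k (f k))) k
    · filter_upwards [h] with q hq
      exact ⟨fun _ => h, fun _ => hq⟩
    · have h' := Ultrafilter.eventually_not.2 h
      filter_upwards [h'] with q hq
      exact ⟨fun h1 => absurd h1 hq, fun h1 => absurd h1 h⟩
  obtain ⟨q, ⟨hq1, hq2⟩, hq3⟩ := ((e1.and e2).and (hU (p (n * (4 * M + 4))))).exists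
  obtain ⟨i, hi⟩ := hG q p hp (fun j hj => lt_trans (hp hj) hq3)
  apply hi
  intro X Y W N f t k hX hY hW hN hfN ht
  have mX : X ∈ SX := Fintype.mem_piFinset.2 fun k => mem_powerset.2 (hX k)
  have mY : Y ∈ SX := Fintype.mem_piFinset.2 fun k => mem_powerset.2 (hY k)
  have mW : W ∈ SX := Fintype.mem_piFinset.2 fun k => mem_powerset.2 (hW k)
  have mN : N ∈ SX := Fintype.mem_piFinset.2 fun k => mem_powerset.2 (hN k)
  have mf : f ∈ Sf := Fintype.mem_piFinset.2 fun k => hN k (hfN k)
  have mt : t ∈ St := Fintype.mem_piFinset.2 fun k => mem_range.2 (by have := ht k; omega)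
  rw [hq1 i X mX Y mY W mW N mN f mf t mt k, hq2 i X mX Y mY W mW N mN f mf k]
  have h1 := hh i X Y W N f t k hX hY hW hN hfN ht
  have a1 : p (pos M k (f k + t k)) ∈ rls M p N t k :=
    mem_image.2 ⟨f k, hfN k, rfl⟩
  have a2 : p (pos M k (f k)) ∈ rl M p N k := mem_image.2 ⟨f k, hfN k, rfl⟩
  constructor
  · intro h2
    exact (mem_filter.1 (h1.1 (mem_filter.2 ⟨a1, h2⟩))).2
  · intro h2
    exact (mem_filter.1 (h1.2 (mem_filter.2 ⟨a2, h2⟩))).2

end Pool.Agent.Lib.MP_994fee_co.TwT
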