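import Pool.Agent.Lib.MP_994fee_co.TwT.Defs19

/-!
# Elimination of a group of blocks with the same parents, with labels between siblings
-/

namespace Pool.Agent.Lib.MP_994fee_co.TwT

open Finset TwB

/-- The state with a new group `Z` of blocks. -/
def extT {n : ℕ} (σ : St ℕ n) (Z : Finset ℕ) (F : ℕ → Fin n → ℕ) (G W : ℕ → Bx n)
    (B C : ℕ → ℕ → Bx n) : St ℕ n :=
  ⟨fun v => if v ∈ Z then F v else σ.c v, fun v => if v ∈ Z then G v else σ.N v,
    fun u v => if u ∈ Z then (if v ∈ Z then W u else B u v) else if v ∈ Z then C v u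
      else σ.b u v⟩

theorem beat_stepT {P : ℕ → Finset ℕ} {E R : ℕ → ℕ → Prop} {n s L M q : ℕ} {A Z : Finset ℕ}
    (hsym : ∀ i j, E i j → E j i)
    (hd : ∀ v ∈ A, v ∉ Z) (hch : ∀ z ∈ Z, ∀ u ∈ A ∪ Z, z ∉ P u)
    (hR : ∀ z ∈ Z, ∀ u ∈ A, ¬ R z u ∧ ¬ R u z ∧ ¬ E z u) (hA : BeatT P E R n s L M q A)
    (h : ℕ → St ℕ n → Fin n → Finset ℕ) (hl : LocStrT P E R (A ∪ Z) h)
    (hg : ∀ v σ k, (h v σ k).card ≤ s)
    (F : St ℕ n → ℕ → Fin n → ℕ) (G W : St ℕ n → ℕ → Bx n) (B C : St ℕ n → ℕ → ℕ → Bx n)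
    (hloc : ∀ v ∈ A, ∀ z ∈ Z, v ∈ P z → ∀ σ σ', LocT P E R A v σ σ' →
      F σ z = F σ' z ∧ B σ z v = B σ' z v ∧ C σ z v = C σ' z v)
    (hgood : ∀ σ, GoodT P E L M q A σ → ∀ z ∈ Z,
      (∀ k, F σ z k ∈ G σ z k ∧ (G σ z k).card = L ∧ F σ z k < q) ∧
      (∀ v ∈ A, v ∈ P z → ∀ k, G σ z k ⊆ B σ z v k ∧ (B σ z v k).card ≤ M ∧
        σ.N v k ⊆ C σ z v k ∧ (C σ z v k).card ≤ M) ∧
      (∀ k, G σ z k ⊆ W σ z k ∧ (W σ z k).card ≤ M) ∧
      ∀ k, F σ z k ∉ h z (extT σ Z (F σ) (G σ) (W σ) (B σ) (C σ)) k) :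
    ∃ σ, GoodT P E L M q (A ∪ Z) σ ∧ ∀ v ∈ A ∪ Z, ∀ k, σ.c v k ∉ h v σ k := by
  have hEA : ∀ v ∈ A, ∀ u ∈ Z, ¬ E v u := fun v hv u hu he => (hR u hu v hv).2.2 (hsym v u he)
  obtain ⟨σ, hσ, hσ2⟩ := hA (fun v σ => h v (extT σ Z (F σ) (fun _ _ => ∅) (fun _ _ => ∅)
      (B σ) (C σ))) (by
    intro v hv k σ σ' hL hown
    have hvZ := hd v hv
    apply hl v (mem_union_left Z hv)
    · refine ⟨?_, ?_, ?_⟩
      · simp only [extT, if_neg hvZ]
        exact hL.1
      · intro u hu hvu
        by_cases huZ : u ∈ Z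
        · have hvu' : v ∈ P u := by
            rcases hvu with h1 | h1 | h1
            · exact absurd h1 (hch u huZ v (mem_union_left Z hv))
            · exact h1
            · exact absurd h1 (hEA v hv u huZ)
          obtain ⟨h1, h2, h3⟩ := hloc v hv u huZ hvu' σ σ' hL
          simp only [extT, if_neg hvZ, if_pos huZ]
          exact ⟨h1, h3, h2⟩
        · have huA : u ∈ A := by
            rcases mem_union.1 hu with h1 | h1
            · exact h1
            · exact absurd h1 huZ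
          simp only [extT, if_neg hvZ, if_neg huZ]
          exact hL.2.1 u huA hvu
      · intro u hu hvu
        by_cases huZ : u ∈ Z
        · exact absurd hvu (hR u huZ v hv).2.1
        · have huA : u ∈ A := by
            rcases mem_union.1 hu with h1 | h1
            · exact h1
            · exact absurd h1 huZ
          simp only [extT, if_neg huZ]
          exact hL.2.2 u huA hvu
    · intro j hj
      simp only [extT, if_neg hvZ]
      exact hown j hj) (fun v σ k => hg v _ k)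
  have hgd := hgood σ hσ
  refine ⟨extT σ Z (F σ) (G σ) (W σ) (B σ) (C σ), ⟨?_, ?_⟩, ?_⟩
  · intro v hv
    by_cases hvZ : v ∈ Z
    · simp only [extT, if_pos hvZ]
      exact (hgd v hvZ).1
    · have hvA : v ∈ A := by
        rcases mem_union.1 hv with h1 | h1
        · exact h1
        · exact absurd h1 hvZ
      simp only [extT, if_neg hvZ]
      exact hσ.1 v hvA
  · intro u hu v hv huv k
    by_cases huZ : u ∈ Z
    · by_cases hvZ : v ∈ Z
      · simp only [extT, if_pos huZ, if_pos hvZ]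
        exact (hgd u huZ).2.2.1 k
      · have hvA : v ∈ A := by
          rcases mem_union.1 hv with h1 | h1
          · exact h1
          · exact absurd h1 hvZ
        have h1 : v ∈ P u := by
          rcases huv with h1 | h1 | h1
          · exact absurd h1 (hch u huZ v hv)
          · exact h1
          · exact absurd h1 (hR u huZ v hvA).2.2
        simp only [extT, if_pos huZ, if_neg hvZ]
        exact ⟨((hgd u huZ).2.1 v hvA h1 k).1, ((hgd u huZ).2.1 v hvA h1 k).2.1⟩
    · have huA : u ∈ A := by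
        rcases mem_union.1 hu with h1 | h1
        · exact h1
        · exact absurd h1 huZ
      by_cases hvZ : v ∈ Z
      · have h1 : u ∈ P v := by
          rcases huv with h1 | h1 | h1
          · exact h1
          · exact absurd h1 (hch v hvZ u hu)
          · exact absurd h1 (hEA u huA v hvZ)
        simp only [extT, if_neg huZ, if_pos hvZ]
        exact ⟨((hgd v hvZ).2.1 u huA h1 k).2.2.1, ((hgd v hvZ).2.1 u huA h1 k).2.2.2⟩
      · have hvA : v ∈ A := by
          rcases mem_union.1 hv with h1 | h1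
          · exact h1
          · exact absurd h1 hvZ
        simp only [extT, if_neg huZ, if_neg hvZ]
        exact hσ.2 u huA v hvA huv k
  · intro v hv k
    by_cases hvZ : v ∈ Z
    · have h1 := (hgd v hvZ).2.2.2 k
      have h2 : (extT σ Z (F σ) (G σ) (W σ) (B σ) (C σ)).c v = F σ v := by
        simp only [extT, if_pos hvZ]
      rw [h2]
      exact h1
    · have hvA : v ∈ A := by
        rcases mem_union.1 hv with h1 | h1
        · exact h1
        · exact absurd h1 hvZ
      have h6 := hσ2 v hvA k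
      have h7 : h v (extT σ Z (F σ) (G σ) (W σ) (B σ) (C σ)) k =
          h v (extT σ Z (F σ) (fun _ _ => ∅) (fun _ _ => ∅) (B σ) (C σ)) k := by
        apply hl v hv
        · refine ⟨?_, ?_, fun u _ _ => rfl⟩
          · simp only [extT, if_neg hvZ]
          · intro u _ _
            simp only [extT, if_neg hvZ]
            exact ⟨trivial, trivial, trivial⟩
        · intro j _
          rfl
      rw [h7]
      simp only [extT, if_neg hvZ] at h6 ⊢
      exact h6

/-- The state seen by the block `z`. -/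
def stt {n : ℕ} (Z : Finset ℕ) (D : Dt n) (x z : ℕ) (T0 S0 : Bx n)
    (τ c : Fin n → ℕ) (X Y W N : Bx n) (f : Fin n → ℕ) : St ℕ n :=
  ⟨fun v => if v = z then f else if v ∈ Z then (D v).1 else if v = x then τ else c, fun _ => N,
    fun u v => if u = z then (if v ∈ Z then W else if v = x then X else Y) else
      if u ∈ Z then (D u).2 else if u = x then T0 else S0⟩

/-- The guesses of the block `z`. -/
def kv {n : ℕ} (h : ℕ → St ℕ n → Fin n → Finset ℕ) (Z : Finset ℕ) (x : ℕ) (T0 S0 : Bx n) (z : ℕ)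
    (τ c : Fin n → ℕ) (D : Dt n) : Gs n :=
  fun X Y W N f k => h z (stt Z D x z T0 S0 τ c X Y W N f) k

theorem kv_ok {P : ℕ → Finset ℕ} {E R : ℕ → ℕ → Prop} {n s : ℕ} {A Z : Finset ℕ}
    (hch : ∀ z ∈ Z, ∀ u ∈ A ∪ Z, z ∉ P u) (hEz : ∀ i, ¬ E i i) (hRz : ∀ z ∈ Z, ¬ R z z)
    (h : ℕ → St ℕ n → Fin n → Finset ℕ) (hl : LocStrT P E R (A ∪ Z) h)
    (hg : ∀ v σ k, (h v σ k).card ≤ s) (x : ℕ) (T0 S0 : Bx n) :
    ∀ z ∈ Z, ∀ τ c D, GsOK s (kv h Z x T0 S0 z τ c D) := by
  intro z hz τ c D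
  refine ⟨fun A B V N f k => hg _ _ _, ?_⟩
  intro X Y W N f f' k hff
  apply hl z (mem_union_right A hz)
  · refine ⟨rfl, ?_, ?_⟩
    · intro u hu huz
      have h2 : u ≠ z := by
        rintro rfl
        rcases huz with h1 | h1 | h1
        · exact hch u hz u hu h1
        · exact hch u hz u hu h1
        · exact hEz u h1
      simp only [stt, if_neg h2]
      exact ⟨trivial, trivial, trivial⟩
    · intro u hu huz
      have h2 : u ≠ z := by
        rintro rfl
        exact hRz u hz huz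
      simp only [stt, if_neg h2]
  · intro j hj
    simp only [stt, if_true]
    exact hff j hj

theorem kv_dep {P : ℕ → Finset ℕ} {E R : ℕ → ℕ → Prop} {n : ℕ} {A Z : Finset ℕ}
    (hd : ∀ v ∈ A, v ∉ Z) (hch : ∀ z ∈ Z, ∀ u ∈ A ∪ Z, z ∉ P u) (hPA : ∀ z ∈ Z, P z ⊆ A)
    (hR : ∀ z ∈ Z, ∀ u ∈ A, ¬ R z u ∧ ¬ R u z ∧ ¬ E z u)
    (h : ℕ → St ℕ n → Fin n → Finset ℕ) (hl : LocStrT P E R (A ∪ Z) h) (x : ℕ) (T0 S0 : Bx n) :
    ∀ z ∈ Z, ∀ τ c, Dep Z E R z (kv h Z x T0 S0 z τ c) := by
  intro z hz τ c D D' hE hRR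
  funext X Y W N f k
  apply hl z (mem_union_right A hz)
  · refine ⟨rfl, ?_, ?_⟩
    · intro u hu huz
      by_cases huZ : u ∈ Z
      · have h1 : E z u := by
          rcases huz with h1 | h1 | h1
          · exact absurd h1 (fun h2 => hd u (hPA z hz h2) huZ)
          · exact absurd h1 (hch z hz u hu)
          · exact h1
        simp only [stt, if_pos huZ, hE u huZ h1, if_true]
        exact ⟨trivial, trivial, trivial⟩
      · simp only [stt, if_neg huZ, if_true]
        exact ⟨trivial, trivial, trivial⟩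
    · intro u hu huz
      have huZ : u ∈ Z := by
        rcases mem_union.1 hu with h1 | h1
        · exact absurd huz (hR z hz u h1).1
        · exact h1
      simp only [stt, if_pos huZ, hRR u huZ huz]
  · intro j _
    simp only [stt, if_true]

end Pool.Agent.Lib.MP_994fee_co.TwT
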