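import Pool.Agent.Lib.MP_994fee_co.TwT.Defs19

/-!
# Row H: the local choice (counting form of the local lemma)
-/

namespace Pool.Agent.Lib.MP_994fee_co.TwT

open Finset Classical

namespace H78

/-- extension by a default value -/
noncomputable def ext {I : Type} (Z : Finset ℕ) (i0 : I) (w : Z → I) : ℕ → I :=
  fun n => if h : n ∈ Z then w ⟨n, h⟩ else i0

theorem ext_apply {I : Type} (Z : Finset ℕ) (i0 : I) (w : Z → I) (z : ℕ) (hz : z ∈ Z) :
    ext Z i0 w z = w ⟨z, hz⟩ := by
  simp [ext, hz]

theorem ext_update {I : Type} (Z : Finset ℕ) (i0 : I) (w : Z → I) (z : ℕ) (hz : z ∈ Z) (i : I) :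
    ext Z i0 (Function.update w ⟨z, hz⟩ i) = Function.update (ext Z i0 w) z i := by
  funext n
  unfold ext
  by_cases h : n = z
  · subst h; simp [hz]
  · by_cases hn : n ∈ Z
    · simp [hn, Function.update, h]
    · simp [hn, Function.update, h]

/-- the choices that are good for `S` -/
noncomputable def Gd {I : Type} [Fintype I] (Z : Finset ℕ) (i0 : I) (Bad : ℕ → (ℕ → I) → Prop)
    (S : Finset ℕ) : Finset (Z → I) :=
  univ.filter (fun w => ∀ z ∈ S, ¬ Bad z (ext Z i0 w))

theorem count {I : Type} [Fintype I] (d : ℕ) (Z : Finset ℕ) (E : ℕ → ℕ → Prop)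
    (hE : ∀ i j, E i j → E j i) (Bad : ℕ → (ℕ → I) → Prop)
    (hloc : ∀ z ∈ Z, ∀ v v' : ℕ → I, v z = v' z → (∀ u ∈ Z, E z u → v u = v' u) →
      Bad z v → Bad z v')
    (hp : ∀ z ∈ Z, ∀ v : ℕ → I, ∀ F : Finset I, (∀ i ∈ F, Bad z (Function.update v z i)) →
      2 ^ (d + 1) * F.card ≤ Fintype.card I)
    (i0 : I) (S : Finset ℕ) (hS : S ⊆ Z) (z : ℕ) (hz : z ∈ Z) (hSz : ∀ u ∈ S, u ≠ z ∧ ¬ E z u) :
    2 ^ (d + 1) * ((Gd Z i0 Bad S).filter (fun w => Bad z (ext Z i0 w))).card
      ≤ (Gd Z i0 Bad S).card := by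
  set Y := Gd Z i0 Bad S with hY
  set X := Y.filter (fun w => Bad z (ext Z i0 w)) with hX
  -- Y is closed under update at z
  have hcl : ∀ w ∈ Y, ∀ i, Function.update w ⟨z, hz⟩ i ∈ Y := by
    intro w hw i
    simp only [hY, Gd, mem_filter, mem_univ, true_and] at hw ⊢
    intro u hu hb
    apply hw u hu
    rw [ext_update] at hb
    refine hloc u (hS hu) _ _ ?_ ?_ hb
    · rw [Function.update_of_ne (hSz u hu).1]
    · intro t ht hut
      rw [Function.update_of_ne]
      rintro rfl
      exact (hSz u hu).2 (hE _ _ hut)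
  set φ : (Z → I) → (Z → I) := fun w => Function.update w ⟨z, hz⟩ i0 with hφ
  have h1 : X.card = ∑ w0 ∈ Y.image φ, (X.filter (fun w => φ w = w0)).card := by
    apply card_eq_sum_card_fiberwise
    intro w hw
    exact mem_coe.2 (mem_image_of_mem φ (mem_filter.1 (mem_coe.1 hw)).1)
  have h2 : Y.card = ∑ w0 ∈ Y.image φ, (Y.filter (fun w => φ w = w0)).card := by
    apply card_eq_sum_card_fiberwise
    intro w hw
    exact mem_coe.2 (mem_image_of_mem φ (mem_coe.1 hw))
  rw [h1, h2, mul_sum]
  apply sum_le_sum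
  intro w0 hw0
  obtain ⟨w, hw, rfl⟩ := mem_image.1 hw0
  -- the fibre of X
  have h3 : (X.filter (fun x => φ x = φ w)).card ≤
      (univ.filter (fun i : I => Bad z (Function.update (ext Z i0 w) z i))).card := by
    apply card_le_card_of_injOn (fun x => x ⟨z, hz⟩)
    · intro x hx
      have hx' := mem_filter.1 (mem_coe.1 hx)
      have hxX := mem_filter.1 hx'.1
      have hxw : x = Function.update w ⟨z, hz⟩ (x ⟨z, hz⟩) := by
        funext t
        by_cases ht : t = ⟨z, hz⟩
        · subst ht; simp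
        · have := congrFun hx'.2 t
          simp only [hφ, Function.update_of_ne ht] at this
          rw [Function.update_of_ne ht, this]
      simp only [coe_filter, mem_univ, true_and, Set.mem_setOf_eq]
      rw [← ext_update Z i0 w z hz, ← hxw]
      exact hxX.2
    · intro x hx y hy hxy
      have hx' := (mem_filter.1 (mem_coe.1 hx)).2
      have hy' := (mem_filter.1 (mem_coe.1 hy)).2
      funext t
      by_cases ht : t = ⟨z, hz⟩
      · subst ht; exact hxy
      · have := congrFun (hx'.trans hy'.symm) t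
        simpa only [hφ, Function.update_of_ne ht] using this
  have h4 : Fintype.card I ≤ (Y.filter (fun x => φ x = φ w)).card := by
    rw [← card_univ]
    apply card_le_card_of_injOn (fun i => Function.update w ⟨z, hz⟩ i)
    · intro i _
      rw [mem_coe, mem_filter]
      refine ⟨hcl w hw i, ?_⟩
      simp [hφ]
    · intro i _ j _ hij
      have := congrFun hij ⟨z, hz⟩
      simpa using this
  have h5 := hp z hz (ext Z i0 w)
    (univ.filter (fun i : I => Bad z (Function.update (ext Z i0 w) z i)))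
    (fun i hi => (mem_filter.1 hi).2)
  calc 2 ^ (d + 1) * (X.filter (fun x => φ x = φ w)).card
      ≤ 2 ^ (d + 1) * (univ.filter (fun i : I => Bad z (Function.update (ext Z i0 w) z i))).card :=
        Nat.mul_le_mul_left _ h3
    _ ≤ Fintype.card I := h5
    _ ≤ _ := h4

theorem anti {I : Type} [Fintype I] (Z : Finset ℕ) (Bad : ℕ → (ℕ → I) → Prop)
    (i0 : I) (S T : Finset ℕ) (h : S ⊆ T) : Gd Z i0 Bad T ⊆ Gd Z i0 Bad S := by
  intro w hw
  simp only [Gd, mem_filter, mem_univ, true_and] at hw ⊢
  exact fun z hz => hw z (h hz)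

theorem step {I : Type} [Fintype I] (d : ℕ) (Z : Finset ℕ) (E : ℕ → ℕ → Prop)
    (hE : ∀ i j, E i j → E j i)
    (hd : ∀ z ∈ Z, ∀ W ⊆ Z, (∀ u ∈ W, E z u) → W.card ≤ d)
    (Bad : ℕ → (ℕ → I) → Prop)
    (hloc : ∀ z ∈ Z, ∀ v v' : ℕ → I, v z = v' z → (∀ u ∈ Z, E z u → v u = v' u) →
      Bad z v → Bad z v')
    (hp : ∀ z ∈ Z, ∀ v : ℕ → I, ∀ F : Finset I, (∀ i ∈ F, Bad z (Function.update v z i)) →
      2 ^ (d + 1) * F.card ≤ Fintype.card I)
    (i0 : I) : ∀ m : ℕ, ∀ S : Finset ℕ, S.card = m → S ⊆ Z → ∀ z ∈ Z, z ∉ S →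
      (Gd Z i0 Bad S).card ≤ 2 * (Gd Z i0 Bad (insert z S)).card := by
  intro m
  induction m using Nat.strong_induction_on with
  | _ m ih =>
    intro S hSm hSZ z hz hzS
    -- the part far from z
    set S' := S.filter (fun u => ¬ E z u) with hS'
    set W := S.filter (fun u => E z u) with hW
    have hWd : W.card ≤ d := hd z hz W ((filter_subset _ _).trans hSZ)
      (fun u hu => (mem_filter.1 hu).2)
    -- adding the elements of W one by one
    have hadd : ∀ U : Finset ℕ, U ⊆ W →
        (Gd Z i0 Bad S').card ≤ 2 ^ U.card * (Gd Z i0 Bad (S' ∪ U)).card := by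
      intro U
      induction U using Finset.induction_on with
      | empty => intro _; simp
      | @insert a U haU ihU =>
        intro hU
        have hUW : U ⊆ W := (subset_insert _ _).trans hU
        have haW : a ∈ W := hU (mem_insert_self _ _)
        have haS : a ∈ S := (mem_filter.1 haW).1
        have h1 := ihU hUW
        have hanot : a ∉ S' ∪ U := by
          rw [mem_union]
          rintro (h | h)
          · exact (mem_filter.1 h).2 (mem_filter.1 haW).2
          · exact haU h
        have hsub : S' ∪ U ⊆ S := union_subset (filter_subset _ _)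
          (hUW.trans (filter_subset _ _))
        have hlt : (S' ∪ U).card < m := by
          rw [← hSm]
          apply card_lt_card
          rw [ssubset_iff_of_subset hsub]
          exact ⟨a, haS, hanot⟩
        have h2 := ih _ hlt (S' ∪ U) rfl (hsub.trans hSZ) a (hSZ haS) hanot
        rw [union_insert, card_insert_of_notMem haU, pow_succ, mul_assoc]
        exact h1.trans (Nat.mul_le_mul_left _ h2)
    have h6 := hadd W (Subset.refl _)
    have hSW : S' ∪ W = S := by
      ext u; simp only [hS', hW, mem_union, mem_filter]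
      tauto
    rw [hSW] at h6
    have h7 : (Gd Z i0 Bad S').card ≤ 2 ^ d * (Gd Z i0 Bad S).card :=
      h6.trans (Nat.mul_le_mul_right _ (Nat.pow_le_pow_right (by norm_num) hWd))
    have h8 := count d Z E hE Bad hloc hp i0 S' ((filter_subset _ _).trans hSZ) z hz
      (fun u hu => ⟨by rintro rfl; exact hzS (mem_filter.1 hu).1, (mem_filter.1 hu).2⟩)
    have h9 : ((Gd Z i0 Bad S).filter (fun w => Bad z (ext Z i0 w))).card ≤
        ((Gd Z i0 Bad S').filter (fun w => Bad z (ext Z i0 w))).card :=
      card_le_card (filter_subset_filter _ (anti Z Bad i0 S' S (filter_subset _ _)))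
    have h10 : (Gd Z i0 Bad (insert z S)) =
        (Gd Z i0 Bad S).filter (fun w => ¬ Bad z (ext Z i0 w)) := by
      ext w
      simp only [Gd, mem_filter, mem_univ, true_and, mem_insert, forall_eq_or_imp]
      tauto
    have h11 := card_filter_add_card_filter_not (s := Gd Z i0 Bad S)
      (fun w => Bad z (ext Z i0 w))
    rw [← h10] at h11
    have h12 : 2 ^ d * (2 * ((Gd Z i0 Bad S).filter (fun w => Bad z (ext Z i0 w))).card) ≤
        2 ^ d * (Gd Z i0 Bad S).card := by
      calc 2 ^ d * (2 * ((Gd Z i0 Bad S).filter (fun w => Bad z (ext Z i0 w))).card)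
          = 2 ^ (d + 1) * ((Gd Z i0 Bad S).filter (fun w => Bad z (ext Z i0 w))).card := by
            rw [pow_succ, mul_assoc]
        _ ≤ 2 ^ (d + 1) * ((Gd Z i0 Bad S').filter (fun w => Bad z (ext Z i0 w))).card :=
            Nat.mul_le_mul_left _ h9
        _ ≤ _ := h8.trans h7
    have h13 := Nat.le_of_mul_le_mul_left h12 (by positivity)
    omega

end H78

/-- ROW H. -/
theorem rowH78 : RowH := by
  intro I _ _ d Z E hE hd Bad hloc hp
  obtain ⟨i0⟩ := (inferInstance : Nonempty I)
  have key : ∀ S : Finset ℕ, S ⊆ Z → 0 < (H78.Gd Z i0 Bad S).card := by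
    intro S
    induction S using Finset.induction_on with
    | empty =>
      intro _
      rw [card_pos]
      exact ⟨fun _ => i0, by simp [H78.Gd]⟩
    | @insert a S haS ih =>
      intro hS
      have h1 := ih ((subset_insert _ _).trans hS)
      have h2 := H78.step d Z E hE hd Bad hloc hp i0 S.card S rfl
        ((subset_insert _ _).trans hS) a (hS (mem_insert_self _ _)) haS
      omega
  obtain ⟨w, hw⟩ := card_pos.1 (key Z (Subset.refl _))
  refine ⟨H78.ext Z i0 w, ?_⟩
  simpa [H78.Gd] using hw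

end Pool.Agent.Lib.MP_994fee_co.TwT
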