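import Pool.Agent.Lib.MP_994fee_co.TwB.Dens75
import Pool.Agent.Lib.MP_994fee_co.TwT.Defs19

/-!
# Row N: the parameters
-/

namespace Pool.Agent.Lib.MP_994fee_co.TwT

open Finset TwB

theorem rowN92 : RowN := by
  intro n L d
  obtain ⟨e, c, C, hc, h⟩ := box_density L n
  obtain ⟨r, hr⟩ : ∃ r, r = 2 * n * (2 * e + 1) + 1 := ⟨_, rfl⟩
  obtain ⟨a, ha⟩ : ∃ a, a = L ^ n * r + 1 := ⟨_, rfl⟩
  obtain ⟨z, hz⟩ : ∃ z, z = c ^ (2 * n) * a ^ (2 * r) + 1 + L + 2 ^ (d + 1) * C * 2 ^ (2 * n) :=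
    ⟨_, rfl⟩
  obtain ⟨M, hM⟩ : ∃ M, M = c * z ^ (2 * e + 1) := ⟨_, rfl⟩
  obtain ⟨D, hD⟩ : ∃ D, D = C * M ^ n / z ^ 2 := ⟨_, rfl⟩
  obtain ⟨B, hB⟩ : ∃ B, B = M ^ (2 * n) / z := ⟨_, rfl⟩
  have hz1 : c ^ (2 * n) * a ^ (2 * r) < z := by omega
  have hz2 : 2 ^ (d + 1) * C * 2 ^ (2 * n) ≤ z := by omega
  have hz0 : 0 < z := by omega
  have hLz : L < z := by omega
  clear hz
  have hMz : z ≤ M := by
    rw [hM, pow_succ]
    calc z = 1 * (1 * z) := by ring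
      _ ≤ c * (z ^ (2 * e) * z) :=
        Nat.mul_le_mul hc (Nat.mul_le_mul_right _ (Nat.one_le_pow _ _ hz0))
  have hMe : c * (z ^ 2) ^ e ≤ M := by
    rw [hM, ← pow_mul]
    exact Nat.mul_le_mul_left _ (Nat.pow_le_pow_right hz0 (Nat.le_succ _))
  have hMpos : 0 < M := by omega
  have hDz : D * z ^ 2 ≤ C * M ^ n := by
    rw [hD]; exact Nat.div_mul_le_self _ _
  have hBz : B * z ≤ M ^ (2 * n) := by
    rw [hB]; exact Nat.div_mul_le_self _ _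
  have hBz' : M ^ (2 * n) ≤ (B + 1) * z := by
    have h1 := Nat.div_add_mod (M ^ (2 * n)) z
    have h2 := Nat.mod_lt (M ^ (2 * n)) hz0
    rw [← hB] at h1
    have h3 : (B + 1) * z = z * B + z := by ring
    omega
  refine ⟨M, D, B, r, by omega, ?_, ?_, ?_⟩
  · rw [← ha]
    have h5 : (M ^ n) ^ 2 = c ^ (2 * n) * z ^ (2 * n * (2 * e + 1)) := by
      rw [hM, ← pow_mul, mul_pow, ← pow_mul]
      congr 1
      · congr 1; ring
      · congr 1; ring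
    have h6 : (M ^ n) ^ (2 * r) = (M ^ (2 * n)) ^ r := by
      rw [← pow_mul, ← pow_mul]
      congr 1
      ring
    have h4 : (M ^ n) ^ 2 * a ^ (2 * r) * B ^ r * z ^ r < (M ^ n) ^ (2 * r) * z ^ r := by
      calc (M ^ n) ^ 2 * a ^ (2 * r) * B ^ r * z ^ r
          = (M ^ n) ^ 2 * a ^ (2 * r) * (B * z) ^ r := by
            rw [mul_pow]; ring
        _ ≤ (M ^ n) ^ 2 * a ^ (2 * r) * (M ^ (2 * n)) ^ r :=
            Nat.mul_le_mul_left _ (Nat.pow_le_pow_left hBz r)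
        _ = (c ^ (2 * n) * a ^ (2 * r)) * (z ^ (2 * n * (2 * e + 1)) * (M ^ (2 * n)) ^ r) := by
            rw [h5]; ring
        _ < z * (z ^ (2 * n * (2 * e + 1)) * (M ^ (2 * n)) ^ r) :=
            Nat.mul_lt_mul_of_pos_right hz1
              (Nat.mul_pos (Nat.pow_pos hz0) (Nat.pow_pos (Nat.pow_pos hMpos)))
        _ = (M ^ n) ^ (2 * r) * z ^ r := by
            rw [h6]
            conv_rhs => rw [hr, pow_succ z]
            rw [← hr]
            ring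
    exact Nat.lt_of_mul_lt_mul_right h4
  · have h7 : 2 ^ (d + 1) * (D * ((2 * M) ^ n) ^ 2) * z ^ 2 ≤ (B + 1) * M ^ n * z ^ 2 := by
      have h8 : ((2 * M) ^ n) ^ 2 = 2 ^ (2 * n) * M ^ (2 * n) := by
        rw [← pow_mul, mul_pow]
        congr 1
        · congr 1; ring
        · congr 1; ring
      calc 2 ^ (d + 1) * (D * ((2 * M) ^ n) ^ 2) * z ^ 2
          = 2 ^ (d + 1) * (2 ^ (2 * n) * M ^ (2 * n)) * (D * z ^ 2) := by rw [h8]; ring
        _ ≤ 2 ^ (d + 1) * (2 ^ (2 * n) * M ^ (2 * n)) * (C * M ^ n) :=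
            Nat.mul_le_mul_left _ hDz
        _ = (2 ^ (d + 1) * C * 2 ^ (2 * n)) * M ^ (2 * n) * M ^ n := by ring
        _ ≤ z * ((B + 1) * z) * M ^ n :=
            Nat.mul_le_mul_right _ (Nat.mul_le_mul hz2 hBz')
        _ = (B + 1) * M ^ n * z ^ 2 := by ring
    exact Nat.le_of_mul_le_mul_right h7 (Nat.pow_pos hz0)
  · intro F hF
    rw [hD]
    exact (Nat.le_div_iff_mul_le (Nat.pow_pos hz0)).2
      (h M (z ^ 2) (Nat.pow_pos hz0) hMe F hF)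

end Pool.Agent.Lib.MP_994fee_co.TwT
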