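import Pool.Agent.Lib.MP_994fee_co.TwT.Defs19

/-!
# Row P: positions for all blocks of a group
-/

namespace Pool.Agent.Lib.MP_994fee_co.TwT

open Finset TwB

namespace P78

/-- finite data: colours and a box in a palette -/
abbrev Dq (n q : ℕ) := (Fin n → Fin (q + 1)) × (Fin n → Finset (Fin (q + 1)))

/-- decode -/
def dec {n q : ℕ} (x : Dq n q) : (Fin n → ℕ) × Bx n :=
  (fun k => (x.1 k : ℕ), fun k => (x.2 k).map Fin.valEmbedding)

/-- every datum in the palette is decoded from a finite one -/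
theorem exists_dec {n q : ℕ} (y : (Fin n → ℕ) × Bx n) (h1 : ∀ k, y.1 k < q)
    (h2 : ∀ k, ∀ a ∈ y.2 k, a < q) : ∃ x : Dq n q, dec x = y := by
  classical
  refine ⟨(fun k => ⟨y.1 k, Nat.lt_succ_of_lt (h1 k)⟩,
    fun k => univ.filter (fun a : Fin (q + 1) => (a : ℕ) ∈ y.2 k)), ?_⟩
  unfold dec
  refine Prod.ext (funext fun k => rfl) (funext fun k => ?_)
  ext a
  simp only [mem_map, mem_filter, mem_univ, true_and, Fin.valEmbedding_apply]
  constructor
  · rintro ⟨b, hb, rfl⟩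
    exact hb
  · intro ha
    exact ⟨⟨a, Nat.lt_succ_of_lt (h2 k a ha)⟩, ha, rfl⟩

/-- what `z` can see of its siblings if the positions of the higher siblings are `pH` and those of
the lower siblings lie below `q0` -/
def Adm {n : ℕ} (M q0 : ℕ) (Z : Finset ℕ) (E R : ℕ → ℕ → Prop) (ρ : ℕ → ℕ) (z : ℕ)
    (pH : ℕ → ℕ → ℕ) (D : Dt n) : Prop :=
  ∀ u ∈ Z, E z u ∨ R z u →
    (ρ u < ρ z → (∀ k, (D u).1 k < q0) ∧ ∀ k, ∀ a ∈ (D u).2 k, a < q0) ∧
    (ρ z < ρ u → (D u).1 = (fun k : Fin n => pH u (pos M k M)) ∧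
      ∃ w : Fin n → Fin (M + 1), (D u).2 = rl M (pH u) (fun k => AI M (w k)))

theorem one (hF : RowF) (n M K d r q0 : ℕ) : ∃ q : ℕ, ∀ (Z : Finset ℕ) (E R : ℕ → ℕ → Prop)
    (ρ : ℕ → ℕ), Grp d r Z E R ρ → ∀ z ∈ Z, ∀ pH : ℕ → ℕ → ℕ,
    ∀ κ : Fin K → Fin K → Dt n → Gs n, (∀ τ c, Dep Z E R z (κ τ c)) →
    ∃ p : ℕ → ℕ, StrictMono p ∧ (∀ j < n * (4 * M + 4), p j < q) ∧
      ∀ τ c D, Adm M q0 Z E R ρ z pH D → Hom M (κ τ c D) p := by
  classical
  obtain ⟨q, hq⟩ := hF n M (Fintype.card (Fin K × Fin K × (Fin (r + 1) → Dq n q0) ×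
    (Fin (d + 1) → Fin n → Fin (M + 1))))
  refine ⟨q, ?_⟩
  intro Z E R ρ hG z hz pH κ hdep
  obtain ⟨eL, rL, hL⟩ := exists_codeB (Nat.succ_pos r)
    (Z.filter (fun u => (E z u ∨ R z u) ∧ ρ u < ρ z))
    ((hG.2.2.2.2 z hz _ (filter_subset _ _) (fun u hu => (mem_filter.1 hu).2)).trans
      (Nat.le_succ r))
  obtain ⟨eE, rE, hE⟩ := exists_codeB (Nat.succ_pos d) (Z.filter (fun u => E z u))
    ((hG.2.1 z hz _ (filter_subset _ _) (fun u hu => (mem_filter.1 hu).2)).trans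
      (Nat.le_succ d))
  let D' : (Fin (r + 1) → Dq n q0) → (Fin (d + 1) → Fin n → Fin (M + 1)) → Dt n := fun x y u =>
    if ρ u < ρ z then dec (x (eL u)) else
      (fun k => pH u (pos M k M), rl M (pH u) (fun k => AI M (y (eE u) k)))
  obtain ⟨p, hp, hpq, hom⟩ := hq (fun i =>
    let a := (Fintype.equivFin _).symm i
    κ a.1 a.2.1 (D' a.2.2.1 a.2.2.2))
  refine ⟨p, hp, hpq, ?_⟩
  intro τ c D hD
  -- the code of D
  have hx : ∀ i : Fin (r + 1), ∃ x : Dq n q0,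
      (rL i ∈ Z ∧ (E z (rL i) ∨ R z (rL i)) ∧ ρ (rL i) < ρ z) → dec x = D (rL i) := by
    intro i
    by_cases h : rL i ∈ Z ∧ (E z (rL i) ∨ R z (rL i)) ∧ ρ (rL i) < ρ z
    · have h1 := (hD _ h.1 h.2.1).1 h.2.2
      obtain ⟨x, hx⟩ := exists_dec (D (rL i)) h1.1 h1.2
      exact ⟨x, fun _ => hx⟩
    · exact ⟨(fun _ => 0, fun _ => ∅), fun h' => absurd h' h⟩
  choose x hx using hx
  have hy : ∀ i : Fin (d + 1), ∃ w : Fin n → Fin (M + 1),
      (rE i ∈ Z ∧ E z (rE i) ∧ ρ z < ρ (rE i)) →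
      (D (rE i)).2 = rl M (pH (rE i)) (fun k => AI M (w k)) := by
    intro i
    by_cases h : rE i ∈ Z ∧ E z (rE i) ∧ ρ z < ρ (rE i)
    · obtain ⟨w, hw⟩ := ((hD _ h.1 (Or.inl h.2.1)).2 h.2.2).2
      exact ⟨w, fun _ => hw⟩
    · exact ⟨fun _ => 0, fun h' => absurd h' h⟩
  choose y hy using hy
  have hDD : κ τ c D = κ τ c (D' x y) := by
    apply hdep τ c
    · intro u hu hzu
      have hne := hG.2.2.2.1 z hz u hu (Or.inl hzu)
      rcases lt_or_gt_of_ne hne with h | h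
      · -- u is higher
        have h1 := (hD u hu (Or.inl hzu)).2 h
        have h2 : rE (eE u) = u := hE u (mem_filter.2 ⟨hu, hzu⟩)
        have h3 := hy (eE u) (by rw [h2]; exact ⟨hu, hzu, h⟩)
        rw [h2] at h3
        have h4 : ¬ ρ u < ρ z := by omega
        simp only [D', if_neg h4]
        exact Prod.ext h1.1 h3
      · have h2 : rL (eL u) = u := hL u (mem_filter.2 ⟨hu, Or.inl hzu, h⟩)
        have h3 := hx (eL u) (by rw [h2]; exact ⟨hu, Or.inl hzu, h⟩)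
        rw [h2] at h3
        have h4 : ρ u < ρ z := h
        simp only [D', if_pos h4]
        exact h3.symm
    · intro u hu hzu
      have hne := hG.2.2.2.1 z hz u hu (Or.inr hzu)
      rcases lt_or_gt_of_ne hne with h | h
      · have h1 := (hD u hu (Or.inr hzu)).2 h
        have h4 : ¬ ρ u < ρ z := by omega
        simp only [D', if_neg h4]
        exact h1.1
      · have h2 : rL (eL u) = u := hL u (mem_filter.2 ⟨hu, Or.inr hzu, h⟩)
        have h3 := hx (eL u) (by rw [h2]; exact ⟨hu, Or.inr hzu, h⟩)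
        rw [h2] at h3
        have h4 : ρ u < ρ z := h
        simp only [D', if_pos h4]
        rw [h3]
  rw [hDD]
  have h5 := hom (Fintype.equivFin _ (τ, c, x, y))
  simpa only [Equiv.symm_apply_apply] using h5

/-- positions for the ranks below `j`, the others being given -/
theorem upTo (hF : RowF) (n M K d r : ℕ) : ∀ j : ℕ, ∃ q : ℕ, ∀ (Z : Finset ℕ)
    (E R : ℕ → ℕ → Prop) (ρ : ℕ → ℕ), Grp d r Z E R ρ → ∀ κ : ℕ → Fin K → Fin K → Dt n → Gs n,
    (∀ z ∈ Z, ∀ τ c, Dep Z E R z (κ z τ c)) → ∀ pH : ℕ → ℕ → ℕ, (∀ z, StrictMono (pH z)) →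
    ∃ p : ℕ → ℕ → ℕ, (∀ z, StrictMono (p z)) ∧ (∀ z, j ≤ ρ z → p z = pH z) ∧
      (∀ z ∈ Z, ρ z < j → ∀ i < n * (4 * M + 4), p z i < q) ∧
      ∀ z ∈ Z, ρ z < j → ∀ τ c, ∀ v : ℕ → Fin n → ℕ, (∀ u k, v u k < M) →
        Hom M (κ z τ c (dat M p v)) (p z) := by
  classical
  intro j
  induction j with
  | zero =>
    refine ⟨0, ?_⟩
    intro Z E R ρ _ κ _ pH hpH
    exact ⟨pH, hpH, fun _ _ => rfl, fun z _ h => absurd h (Nat.not_lt_zero _),
      fun z _ h => absurd h (Nat.not_lt_zero _)⟩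
  | succ j ih =>
    obtain ⟨q0, hq0⟩ := ih
    obtain ⟨q1, hq1⟩ := one hF n M K d r q0
    refine ⟨max q0 q1, ?_⟩
    intro Z E R ρ hG κ hdep pH hpH
    have h1 : ∀ z : ℕ, ∃ p : ℕ → ℕ, StrictMono p ∧ (z ∈ Z →
        (∀ j < n * (4 * M + 4), p j < q1) ∧
        ∀ τ c D, Adm M q0 Z E R ρ z pH D → Hom M (κ z τ c D) p) := by
      intro z
      by_cases hz : z ∈ Z
      · obtain ⟨p, h2, h3, h4⟩ := hq1 Z E R ρ hG z hz pH (κ z) (hdep z hz)
        exact ⟨p, h2, fun _ => ⟨h3, h4⟩⟩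
      · exact ⟨id, strictMono_id, fun h => absurd h hz⟩
    choose pj hpj hpj2 using h1
    obtain ⟨p, hp1, hp2, hp3, hp4⟩ := hq0 Z E R ρ hG κ hdep
      (fun z => if ρ z = j then pj z else pH z) (by
        intro z
        by_cases h : ρ z = j
        · simp only [h, if_true]
          exact hpj z
        · simp only [if_neg h]
          exact hpH z)
    have hpz : ∀ z, ρ z = j → p z = pj z := by
      intro z h
      rw [hp2 z (by omega)]
      simp only [h, if_true]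
    have hpz2 : ∀ z, j < ρ z → p z = pH z := by
      intro z h
      rw [hp2 z (by omega)]
      have : ¬ ρ z = j := by omega
      simp only [if_neg this]
    refine ⟨p, hp1, fun z h => hpz2 z (by omega), ?_, ?_⟩
    · intro z hz h i hi
      rcases Nat.lt_succ_iff_lt_or_eq.1 h with h | h
      · exact lt_of_lt_of_le (hp3 z hz h i hi) (le_max_left _ _)
      · rw [hpz z h]
        exact lt_of_lt_of_le ((hpj2 z hz).1 i hi) (le_max_right _ _)
    · intro z hz h τ c v hv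
      rcases Nat.lt_succ_iff_lt_or_eq.1 h with h | h
      · exact hp4 z hz h τ c v hv
      · rw [hpz z h]
        apply (hpj2 z hz).2
        intro u hu hzu
        have hbd : ∀ (k : Fin n) (x : ℕ), x ≤ 2 * M + 1 → pos M k x < n * (4 * M + 4) := by
          intro k x hx
          have h1 : (k : ℕ) + 1 ≤ n := k.2
          calc pos M k x = (k : ℕ) * (4 * M + 4) + x := rfl
            _ < ((k : ℕ) + 1) * (4 * M + 4) := by rw [add_mul]; omega
            _ ≤ n * (4 * M + 4) := Nat.mul_le_mul_right _ h1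
        refine ⟨?_, ?_⟩
        · intro hlt
          have h5 : ρ u < j := by omega
          refine ⟨fun k => hp3 u hu h5 _ (hbd k M (by omega)), ?_⟩
          intro k a ha
          obtain ⟨x, hx, rfl⟩ := mem_image.1 ha
          have hx' := mem_Ico.1 hx
          exact hp3 u hu h5 _ (hbd k x (by omega))
        · intro hlt
          have h5 : p u = pH u := hpz2 u (by omega)
          refine ⟨by simp only [dat, h5], fun k => ⟨v u k, Nat.lt_succ_of_lt (hv u k)⟩, ?_⟩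
          simp only [dat, h5]

end P78

/-- ROW P. -/
theorem rowP78 : RowF → RowP := by
  intro hF n M K d r
  obtain ⟨q, hq⟩ := P78.upTo hF n M K d r r
  refine ⟨q, ?_⟩
  intro Z E R ρ hG κ hdep
  obtain ⟨p, h1, _, h3, h4⟩ := hq Z E R ρ hG κ hdep (fun _ => id) (fun _ => strictMono_id)
  exact ⟨p, h1, fun z hz => h3 z hz (hG.2.2.1 z hz), fun z hz => h4 z hz (hG.2.2.1 z hz)⟩

end Pool.Agent.Lib.MP_994fee_co.TwT
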