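import Mathlib

/-!
# Blocks with at most two parents which are nested or adjacent siblings
-/

namespace Pool.Agent.Lib.MP_994fee_co

/-- Numbered blocks of at most `n` vertices, and a graph `T` of maximum degree at most `n` on the
blocks; the block `i` has a set `P i` of at most two smaller blocks (its parents), blocks adjacent
in `T` have the same parents, and if a block has two parents, then one is a parent of the other, or
they are adjacent in `T`. An edge of `G` lies in a block, or joins a block to a parent, or joins two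
blocks adjacent in `T`, or joins two blocks with the same parents and different ranks (ranks below
`n`), and every block has at most `n` neighbouring blocks with the same parents and smaller rank. -/
def TorsoTree {V : Type} (n : ℕ) (G : SimpleGraph V) : Prop :=
  ∃ (m : ℕ) (β : V → Fin m) (P : Fin m → Finset (Fin m)) (T : SimpleGraph (Fin m))
    (ρ : Fin m → ℕ),
    (∀ i, ∀ j ∈ P i, j < i) ∧ (∀ i, (P i).card ≤ 2) ∧
    (∀ i, ∀ j ∈ P i, ∀ k ∈ P i, j < k → j ∈ P k ∨ T.Adj j k) ∧
    (∀ i j, T.Adj i j → P i = P j) ∧ (∀ i, {j | T.Adj i j}.ncard ≤ n) ∧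
    (∀ i, {v | β v = i}.ncard ≤ n) ∧ (∀ i, ρ i < n) ∧
    (∀ v w, G.Adj v w → β v = β w ∨ β v ∈ P (β w) ∨ β w ∈ P (β v) ∨ T.Adj (β v) (β w) ∨
      (P (β v) = P (β w) ∧ ρ (β v) ≠ ρ (β w))) ∧
    ∀ i, {j | P j = P i ∧ ρ j < ρ i ∧ ∃ v w, G.Adj v w ∧ β v = i ∧ β w = j}.ncard ≤ n

/-- `G` is layered with parameter `n`: the vertices have levels below `n`, every vertex has at most
`n` neighbours of smaller level, and every level induces a graph as in `TorsoTree n`. -/
def TorsoTreeLayered {V : Type} (n : ℕ) (G : SimpleGraph V) : Prop :=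
  ∃ lev : V → ℕ, (∀ v, lev v < n) ∧ (∀ v, {w | G.Adj v w ∧ lev w < lev v}.ncard ≤ n) ∧
    ∀ i, TorsoTree n (G.induce {v | lev v = i})

end Pool.Agent.Lib.MP_994fee_co
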