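import Pool.Agent.Lib.MP_994fee_co.TwT.Defs19
import Pool.Agent.Lib.MP_994fee_co.TwB.Count19

/-!
# Row B: there are few bad triples of windows
-/

namespace Pool.Agent.Lib.MP_994fee_co.TwT

open Finset TwB

theorem rowB19 : RowB := by
  classical
  intro n s L M D hL hD g p hg hp hHom F hF
  have hpos : ∀ k, StrictMono (fun x => p (pos M k x)) := by
    intro k x y hxy
    apply hp
    simp only [pos]
    omega
  have hAIr : ∀ i : Fin M, AI M i ⊆ range (2 * M + 1) := by
    intro i x hx
    have := mem_Ico.1 hx
    exact mem_range.2 (by omega)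
  have h0 : ((Fintype.piFinset (fun _ : Fin n => range (2 * M))) ×ˢ
      (Fintype.piFinset (fun _ : Fin n => range (2 * M)))).card = ((2 * M) ^ n) ^ 2 := by
    rw [card_product, Fintype.card_piFinset]
    simp only [card_range, prod_const, card_univ, Fintype.card_fin]
    ring
  rw [← h0]
  refine Finset.card_le_mul_card_image_of_maps_to
    (f := fun q : (Fin n → Fin M) × (Fin n → Fin M) × (Fin n → Fin M) =>
      ((fun k => (q.1 k : ℕ) + (M - (q.2.1 k : ℕ))),
        (fun k => (q.1 k : ℕ) + (M - (q.2.2 k : ℕ))))) ?_ D ?_
  · intro q _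
    rw [mem_product]
    refine ⟨?_, ?_⟩
    · rw [Fintype.mem_piFinset]
      intro k
      have h2 := (q.1 k).2
      exact mem_range.2 (by simp only; omega)
    · rw [Fintype.mem_piFinset]
      intro k
      have h2 := (q.1 k).2
      exact mem_range.2 (by simp only; omega)
  · rintro ⟨d, d'⟩ _
    by_contra hcon
    push Not at hcon
    obtain ⟨F', hF'def⟩ : ∃ F' : Finset ((Fin n → Fin M) × (Fin n → Fin M) × (Fin n → Fin M)),
      F' = F.filter (fun q => ((fun k => (q.1 k : ℕ) + (M - (q.2.1 k : ℕ))),
        (fun k => (q.1 k : ℕ) + (M - (q.2.2 k : ℕ)))) = (d, d')) := ⟨_, rfl⟩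
    rw [← hF'def] at hcon
    have hd : ∀ q ∈ F', ∀ k, (q.1 k : ℕ) + (M - (q.2.1 k : ℕ)) = d k := by
      intro q hq k
      rw [hF'def] at hq
      exact congrFun (Prod.ext_iff.1 (mem_filter.1 hq).2).1 k
    have hd' : ∀ q ∈ F', ∀ k, (q.1 k : ℕ) + (M - (q.2.2 k : ℕ)) = d' k := by
      intro q hq k
      rw [hF'def] at hq
      exact congrFun (Prod.ext_iff.1 (mem_filter.1 hq).2).2 k
    have hFF : ∀ q ∈ F', q ∈ F := by
      intro q hq
      rw [hF'def] at hq
      exact (mem_filter.1 hq).1
    have hinj : Set.InjOn (Prod.fst : (Fin n → Fin M) × (Fin n → Fin M) × (Fin n → Fin M) → _)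
        (F' : Set _) := by
      intro q hq q' hq' hqq
      refine Prod.ext hqq (Prod.ext ?_ ?_)
      · funext k
        have h1 := hd q (Finset.mem_coe.1 hq) k
        have h2 := hd q' (Finset.mem_coe.1 hq') k
        have h3 := (q.2.1 k).2
        have h4 := (q'.2.1 k).2
        rw [hqq] at h1
        exact Fin.ext (by omega)
      · funext k
        have h1 := hd' q (Finset.mem_coe.1 hq) k
        have h2 := hd' q' (Finset.mem_coe.1 hq') k
        have h3 := (q.2.2 k).2
        have h4 := (q'.2.2 k).2
        rw [hqq] at h1
        exact Fin.ext (by omega)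
    have hcard : D < (F'.image Prod.fst).card := by
      rw [Finset.card_image_of_injOn hinj]
      exact hcon
    have hbox : HasBox L (fun x => x ∈ F'.image Prod.fst) := by
      by_contra hno
      exact absurd (hD _ hno) (by omega)
    obtain ⟨W, hW, hWF⟩ := hbox
    have hWne : ∀ k, (W k).Nonempty := by
      intro k
      rw [← Finset.card_pos, hW k]
      omega
    let i0 : Fin n → Fin M := fun k => (W k).max' (hWne k)
    have hi0 : ∀ k, i0 k ∈ W k := fun k => Finset.max'_mem _ _
    have hmax : ∀ k, ∀ x ∈ W k, x ≤ i0 k := fun k x hx => Finset.le_max' _ _ hx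
    obtain ⟨⟨i0', j0, v0⟩, h0F, h0eq⟩ := mem_image.1 (hWF i0 hi0)
    simp only at h0eq
    subst h0eq
    let Ns : Bx n := fun k => (W k).image (fun x : Fin M => M - (i0 k : ℕ) + (x : ℕ))
    have hNsr : ∀ k, Ns k ⊆ range (2 * M + 1) := by
      intro k y hy
      obtain ⟨w, hw, rfl⟩ := mem_image.1 hy
      have e1 : (w : ℕ) ≤ i0 k := hmax k w hw
      have e2 := (i0 k).2
      exact mem_range.2 (by omega)
    -- some coordinate hits, for every vector of the box
    have hhit : ∀ x : Fin n → Fin M, (∀ k, x k ∈ W k) →
        ∃ k, p (pos M k (M - (i0 k : ℕ) + (x k : ℕ))) ∈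
          g (rl M p (fun k => AI M (i0 k))) (rl M p (fun k => AI M (j0 k)))
            (rl M p (fun k => AI M (v0 k))) (rl M p Ns)
            (fun k => p (pos M k (M - (i0 k : ℕ) + (x k : ℕ)))) k := by
      intro x hx
      obtain ⟨⟨x', jx, vx⟩, hxF, hxeq⟩ := mem_image.1 (hWF x hx)
      simp only at hxeq
      subst hxeq
      have hb := hF _ (hFF _ hxF)
      have hlex : ∀ k, (x' k : ℕ) ≤ i0 k := fun k => hmax k _ (hx k)
      have hdx : ∀ k, (x' k : ℕ) + (M - (jx k : ℕ)) = d k := fun k => hd _ hxF k
      have hd0 : ∀ k, (i0 k : ℕ) + (M - (j0 k : ℕ)) = d k := fun k => hd _ h0F k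
      have hdx' : ∀ k, (x' k : ℕ) + (M - (vx k : ℕ)) = d' k := fun k => hd' _ hxF k
      have hd0' : ∀ k, (i0 k : ℕ) + (M - (v0 k : ℕ)) = d' k := fun k => hd' _ h0F k
      have hlt : ∀ k, (i0 k : ℕ) < M := fun k => (i0 k).2
      have hltj : ∀ k, (j0 k : ℕ) < M := fun k => (j0 k).2
      have hltjx : ∀ k, (jx k : ℕ) < M := fun k => (jx k).2
      have hltv : ∀ k, (v0 k : ℕ) < M := fun k => (v0 k).2
      have hltvx : ∀ k, (vx k : ℕ) < M := fun k => (vx k).2
      let t : Fin n → ℕ := fun k => (i0 k : ℕ) - (x' k : ℕ)
      have hA : ∀ k, (AI M (i0 k)).image (fun y => y + t k) = AI M (x' k) := by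
        intro k
        have e1 := hlex k
        have e2 := hlt k
        ext y
        simp only [AI, mem_image, mem_Ico, t]
        constructor
        · rintro ⟨z, hz, rfl⟩
          omega
        · intro hy
          exact ⟨y - ((i0 k : ℕ) - (x' k : ℕ)), by omega, by omega⟩
      have hB : ∀ k, (AI M (j0 k)).image (fun y => y + t k) = AI M (jx k) := by
        intro k
        have e1 := hlex k
        have e2 := hlt k
        have e3 := hdx k
        have e4 := hd0 k
        have e5 := hltj k
        have e6 := hltjx k
        ext y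
        simp only [AI, mem_image, mem_Ico, t]
        constructor
        · rintro ⟨z, hz, rfl⟩
          omega
        · intro hy
          exact ⟨y - ((i0 k : ℕ) - (x' k : ℕ)), by omega, by omega⟩
      have hV : ∀ k, (AI M (v0 k)).image (fun y => y + t k) = AI M (vx k) := by
        intro k
        have e1 := hlex k
        have e2 := hlt k
        have e3 := hdx' k
        have e4 := hd0' k
        have e5 := hltv k
        have e6 := hltvx k
        ext y
        simp only [AI, mem_image, mem_Ico, t]
        constructor
        · rintro ⟨z, hz, rfl⟩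
          omega
        · intro hy
          exact ⟨y - ((i0 k : ℕ) - (x' k : ℕ)), by omega, by omega⟩
      have hsub : ∀ (k : Fin n) (w : Fin M), w ∈ W k → ∃ (jw vw : Fin M),
          (w : ℕ) + (M - (jw : ℕ)) = d k ∧ (w : ℕ) + (M - (vw : ℕ)) = d' k := by
        intro k w hw
        obtain ⟨⟨w', jw, vw⟩, hwF, hweq⟩ := mem_image.1 (hWF (Function.update i0 k w) (by
          intro k'
          by_cases hkk : k' = k
          · subst hkk
            rw [Function.update_self]
            exact hw
          · rw [Function.update_of_ne hkk]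
            exact hi0 k'))
        have e6 := hd _ hwF k
        have e6' := hd' _ hwF k
        simp only at hweq e6 e6'
        rw [hweq, Function.update_self] at e6 e6'
        exact ⟨jw k, vw k, e6, e6'⟩
      obtain ⟨k, hk⟩ := hb (fun k => (Ns k).image (fun y => y + t k)) (by
        intro k
        refine ⟨?_, ?_, ?_, ?_, ?_⟩
        · rw [← hA k]
          apply Finset.image_subset_image
          intro y hy
          obtain ⟨w, hw, rfl⟩ := mem_image.1 hy
          have e1 : (w : ℕ) ≤ i0 k := hmax k w hw
          have e2 := hlt k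
          simp only [AI, mem_Ico]
          omega
        · rw [← hB k]
          apply Finset.image_subset_image
          intro y hy
          obtain ⟨w, hw, rfl⟩ := mem_image.1 hy
          have e1 : (w : ℕ) ≤ i0 k := hmax k w hw
          have e2 := hlt k
          have e4 := hd0 k
          have e5 := hltj k
          obtain ⟨jw, vw, e6, _⟩ := hsub k w hw
          have e7 := jw.2
          simp only [AI, mem_Ico]
          omega
        · rw [← hV k]
          apply Finset.image_subset_image
          intro y hy
          obtain ⟨w, hw, rfl⟩ := mem_image.1 hy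
          have e1 : (w : ℕ) ≤ i0 k := hmax k w hw
          have e2 := hlt k
          have e4 := hd0' k
          have e5 := hltv k
          obtain ⟨jw, vw, _, e6⟩ := hsub k w hw
          have e7 := vw.2
          simp only [AI, mem_Ico]
          omega
        · rw [Finset.card_image_of_injective _ (add_left_injective (t k))]
          simp only [Ns]
          rw [Finset.card_image_of_injective, hW k]
          intro y y' hyy
          simp only at hyy
          exact Fin.ext (by omega)
        · refine mem_image.2 ⟨M - (i0 k : ℕ) + (x' k : ℕ), ?_, ?_⟩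
          · exact mem_image.2 ⟨x' k, hx k, rfl⟩
          · have e1 := hlex k
            have e2 := hlt k
            simp only [t]
            omega)
      refine ⟨k, ?_⟩
      have h5 := (hHom (fun k => AI M (i0 k)) (fun k => AI M (j0 k)) (fun k => AI M (v0 k)) Ns
        (fun k => M - (i0 k : ℕ) + (x' k : ℕ)) t k (fun k => hAIr _) (fun k => hAIr _)
        (fun k => hAIr _) hNsr (fun k => mem_image.2 ⟨x' k, hx k, rfl⟩)
        (by
          intro k
          have e2 := hlt k
          simp only [t]
          omega)).1
      apply h5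
      have himg : ∀ (X : Bx n) (k : Fin n), ((X k).image (fun y => y + t k)).image
          (fun y => p (pos M k y)) = (X k).image (fun y => p (pos M k (y + t k))) := by
        intro X k
        rw [Finset.image_image]
        rfl
      have g1 : rls M p (fun k => AI M (i0 k)) t = rl M p (fun k => AI M (x' k)) := by
        funext k
        simp only [rls, rl]
        rw [← himg (fun k => AI M (i0 k)) k, hA k]
      have g2 : rls M p (fun k => AI M (j0 k)) t = rl M p (fun k => AI M (jx k)) := by
        funext k
        simp only [rls, rl]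
        rw [← himg (fun k => AI M (j0 k)) k, hB k]
      have g2' : rls M p (fun k => AI M (v0 k)) t = rl M p (fun k => AI M (vx k)) := by
        funext k
        simp only [rls, rl]
        rw [← himg (fun k => AI M (v0 k)) k, hV k]
      have g3 : rls M p Ns t = rl M p (fun k => (Ns k).image (fun y => y + t k)) := by
        funext k
        simp only [rls, rl]
        rw [← himg Ns k]
      have g4 : (fun k : Fin n => p (pos M k (M - (i0 k : ℕ) + (x' k : ℕ) + t k))) =
          fun k : Fin n => p (pos M k M) := by
        funext k
        have e1 := hlex k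
        have e2 := hlt k
        have e3 : M - (i0 k : ℕ) + (x' k : ℕ) + t k = M := by
          simp only [t]
          omega
        rw [e3]
      rw [g1, g2, g2', g3, g4, congrFun g4 k]
      exact hk
    obtain ⟨x, hx, hxn⟩ := box_count W L s hW hL
      (fun x k => univ.filter (fun w : Fin M => p (pos M k (M - (i0 k : ℕ) + (w : ℕ))) ∈
        g (rl M p (fun k => AI M (i0 k))) (rl M p (fun k => AI M (j0 k)))
            (rl M p (fun k => AI M (v0 k))) (rl M p Ns)
            (fun k => p (pos M k (M - (i0 k : ℕ) + (x k : ℕ)))) k))
      (by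
        intro x k
        refine le_trans ?_ (hg.1 (rl M p (fun k => AI M (i0 k))) (rl M p (fun k => AI M (j0 k)))
            (rl M p (fun k => AI M (v0 k))) (rl M p Ns)
            (fun k => p (pos M k (M - (i0 k : ℕ) + (x k : ℕ)))) k)
        refine Finset.card_le_card_of_injOn
          (fun w : Fin M => p (pos M k (M - (i0 k : ℕ) + (w : ℕ)))) ?_ ?_
        · intro w hw
          exact (mem_filter.1 (Finset.mem_coe.1 hw)).2
        · intro w _ w' _ hww
          have := (hpos k).injective hww
          exact Fin.ext (by omega))
      (by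
        intro x x' k hxx
        have : g (rl M p (fun k => AI M (i0 k))) (rl M p (fun k => AI M (j0 k)))
            (rl M p (fun k => AI M (v0 k))) (rl M p Ns)
            (fun k => p (pos M k (M - (i0 k : ℕ) + (x k : ℕ)))) k =
          g (rl M p (fun k => AI M (i0 k))) (rl M p (fun k => AI M (j0 k)))
            (rl M p (fun k => AI M (v0 k))) (rl M p Ns)
            (fun k => p (pos M k (M - (i0 k : ℕ) + (x' k : ℕ)))) k := by
          apply hg.2
          intro j hj
          rw [hxx j hj]
        simp only [this])
    obtain ⟨k, hk⟩ := hhit x hx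
    exact hxn k (mem_filter.2 ⟨mem_univ _, hk⟩)

end Pool.Agent.Lib.MP_994fee_co.TwT
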