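import Pool.Agent.Lib.MP_994fee_co.TwT.Group19

/-!
# Row G: elimination of a group of blocks with the same parents
-/

namespace Pool.Agent.Lib.MP_994fee_co.TwT

open Finset TwB

/-- A proper colouring with `n + 1` colours. -/
theorem exists_col19 (E : ℕ → ℕ → Prop) (hsym : ∀ i j, E i j → E j i) (hirr : ∀ i, ¬ E i i)
    (n : ℕ) (Z : Finset ℕ) (hdeg : ∀ z ∈ Z, ∀ W ⊆ Z, (∀ u ∈ W, E z u) → W.card ≤ n) :
    ∃ col : ℕ → ℕ, ∀ z ∈ Z, col z ≤ n ∧ ∀ u ∈ Z, E z u → col z ≠ col u := by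
  classical
  induction Z using Finset.induction_on with
  | empty => exact ⟨fun _ => 0, fun z hz => absurd hz (notMem_empty z)⟩
  | insert a Z ha ih =>
    obtain ⟨col, hcol⟩ := ih (fun z hz W hW h =>
      hdeg z (mem_insert_of_mem hz) W (hW.trans (subset_insert a Z)) h)
    have h1 : ((Z.filter (fun u => E a u)).image col).card < (range (n + 1)).card := by
      rw [card_range]
      refine lt_of_le_of_lt card_image_le (Nat.lt_succ_of_le ?_)
      exact hdeg a (mem_insert_self a Z) _ ((filter_subset _ _).trans (subset_insert a Z))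
        (fun u hu => (mem_filter.1 hu).2)
    obtain ⟨x, hx, hxn⟩ := Finset.exists_mem_notMem_of_card_lt_card h1
    refine ⟨fun z => if z = a then x else col z, ?_⟩
    have hxa : ∀ u ∈ Z, E a u → x ≠ col u := by
      rintro u hu hau rfl
      exact hxn (mem_image.2 ⟨u, mem_filter.2 ⟨hu, hau⟩, rfl⟩)
    have hne : ∀ u ∈ Z, u ≠ a := by
      rintro u hu rfl
      exact ha hu
    intro z hz0
    rcases mem_insert.1 hz0 with rfl | hz
    · simp only [if_true]
      refine ⟨Nat.lt_succ_iff.1 (mem_range.1 hx), ?_⟩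
      intro u hu hzu
      rcases mem_insert.1 hu with rfl | hu
      · exact absurd hzu (hirr u)
      · rw [if_neg (hne u hu)]
        exact hxa u hu hzu
    · simp only [if_neg (hne z hz)]
      refine ⟨(hcol z hz).1, ?_⟩
      intro u hu hzu
      rcases mem_insert.1 hu with rfl | hu
      · rw [if_pos rfl]
        exact (hxa z hz (hsym _ _ hzu)).symm
      · rw [if_neg (hne u hu)]
        exact (hcol z hz).2 u hu hzu

/-- The combined ranks. -/
theorem exists_grp19 (E R : ℕ → ℕ → Prop) (hsym : ∀ i j, E i j → E j i) (hirr : ∀ i, ¬ E i i)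
    (n : ℕ) (Z : Finset ℕ) (ρ : ℕ → ℕ) (hdeg : ∀ z ∈ Z, ∀ W ⊆ Z, (∀ u ∈ W, E z u) → W.card ≤ n)
    (hρ : ∀ z ∈ Z, ρ z < n) (hρ2 : ∀ z ∈ Z, ∀ u ∈ Z, R z u → ρ z ≠ ρ u)
    (hρ3 : ∀ z ∈ Z, ∀ W ⊆ Z, (∀ u ∈ W, R z u ∧ ρ u < ρ z) → W.card ≤ n) :
    ∃ ρ' : ℕ → ℕ, Grp n (n * (n + 1) + 2 * n) Z E R ρ' := by
  classical
  obtain ⟨col, hcol⟩ := exists_col19 E hsym hirr n Z hdeg
  have hkey : ∀ z ∈ Z, ∀ u ∈ Z, ρ u * (n + 1) + col u = ρ z * (n + 1) + col z →
      ρ u = ρ z ∧ col u = col z := by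
    intro z hz u hu h
    have h1 := (hcol z hz).1
    have h2 := (hcol u hu).1
    rcases lt_trichotomy (ρ u) (ρ z) with h3 | h3 | h3
    · have h4 : (ρ u + 1) * (n + 1) ≤ ρ z * (n + 1) := Nat.mul_le_mul_right _ h3
      rw [Nat.add_mul, Nat.one_mul] at h4
      omega
    · refine ⟨h3, ?_⟩
      rw [h3] at h
      omega
    · have h4 : (ρ z + 1) * (n + 1) ≤ ρ u * (n + 1) := Nat.mul_le_mul_right _ h3
      rw [Nat.add_mul, Nat.one_mul] at h4
      omega
  have hle : ∀ z ∈ Z, ∀ u ∈ Z, ρ u * (n + 1) + col u < ρ z * (n + 1) + col z → ρ u ≤ ρ z := by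
    intro z hz u hu h
    have h1 := (hcol z hz).1
    have h2 := (hcol u hu).1
    by_contra h3
    push Not at h3
    have h4 : (ρ z + 1) * (n + 1) ≤ ρ u * (n + 1) := Nat.mul_le_mul_right _ h3
    rw [Nat.add_mul, Nat.one_mul] at h4
    omega
  refine ⟨fun z => ρ z * (n + 1) + col z, hsym, hdeg, ?_, ?_, ?_⟩
  · intro z hz
    have h1 := (hcol z hz).1
    have h2 := hρ z hz
    have h4 : (ρ z + 1) * (n + 1) ≤ n * (n + 1) := Nat.mul_le_mul_right _ h2
    rw [Nat.add_mul, Nat.one_mul] at h4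
    show ρ z * (n + 1) + col z < _
    omega
  · intro z hz u hu h h2
    obtain ⟨h3, h4⟩ := hkey u hu z hz h2
    rcases h with h | h
    · exact (hcol z hz).2 u hu h h4
    · exact hρ2 z hz u hu h h3
  · intro z hz W hW hW2
    have h1 : W = W.filter (fun u => E z u) ∪ W.filter (fun u => ¬ E z u) :=
      (filter_union_filter_not_eq _ _).symm
    have h2 : (W.filter (fun u => E z u)).card ≤ n :=
      hdeg z hz _ ((filter_subset _ _).trans hW) (fun u hu => (mem_filter.1 hu).2)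
    have h3 : (W.filter (fun u => ¬ E z u)).card ≤ n := by
      refine hρ3 z hz _ ((filter_subset _ _).trans hW) ?_
      intro u hu
      obtain ⟨huW, hun⟩ := mem_filter.1 hu
      obtain ⟨h4, h5⟩ := hW2 u huW
      have hR : R z u := by
        rcases h4 with h4 | h4
        · exact absurd h4 hun
        · exact h4
      refine ⟨hR, lt_of_le_of_ne (hle z hz u (hW huW) h5) ?_⟩
      exact (hρ2 z hz u (hW huW) hR).symm
    rw [h1]
    refine le_trans (card_union_le _ _) ?_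
    omega

theorem group_extT {P : ℕ → Finset ℕ} {E R : ℕ → ℕ → Prop} {n s L M q : ℕ} {A Z : Finset ℕ}
    (hsym : ∀ i j, E i j → E j i) (hEz : ∀ i, ¬ E i i)
    (hd : ∀ v ∈ A, v ∉ Z) (hch : ∀ z ∈ Z, ∀ u ∈ A ∪ Z, z ∉ P u)
    (hPA : ∀ z ∈ Z, P z ⊆ A)
    (hR : ∀ z ∈ Z, ∀ u ∈ A, ¬ R z u ∧ ¬ R u z ∧ ¬ E z u) (hRz : ∀ z ∈ Z, ¬ R z z)
    (hA : BeatT P E R n s L M q A)
    (h : ℕ → St ℕ n → Fin n → Finset ℕ) (hl : LocStrT P E R (A ∪ Z) h)
    (hg : ∀ v σ k, (h v σ k).card ≤ s) (x : ℕ)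
    (hK : ∀ T S : Bx n, ∃ (f : ℕ → Fin n → ℕ) (V : ℕ → (Fin n → ℕ) → (Fin n → ℕ) → Bx n)
      (A' : ℕ → Bx n → (Fin n → ℕ) → Bx n) (B' : ℕ → (Fin n → ℕ) → Bx n → Bx n)
      (N' : ℕ → (Fin n → ℕ) → Bx n → (Fin n → ℕ) → Bx n → Bx n), (∀ k, (T k).card ≤ M) →
      (∀ k, (S k).card ≤ M) → ∀ z ∈ Z,
      (∀ k, f z k < q) ∧ (∀ Q c k, (A' z Q c k).card ≤ M) ∧ (∀ τ Q k, (B' z τ Q k).card ≤ M) ∧
      (∀ τ c k, (V z τ c k).card ≤ M) ∧
      ∀ τ Q c Q', (∀ k, τ k ∈ Q k) → (∀ k, c k ∈ Q' k) → (∀ k, Q k ⊆ T k) → (∀ k, Q' k ⊆ S k) →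
        (∀ k, (Q k).card = L) → (∀ k, (Q' k).card = L) →
        (∀ k, f z k ∈ N' z τ Q c Q' k ∧ (N' z τ Q c Q' k).card = L ∧
          N' z τ Q c Q' k ⊆ A' z Q c k ∧ N' z τ Q c Q' k ⊆ B' z τ Q' k ∧
          N' z τ Q c Q' k ⊆ V z τ c k) ∧
        ∀ k, f z k ∉ kv h Z x T S z τ c (fun u => (f u, V u τ c)) (A' z Q c) (B' z τ Q') (V z τ c)
          (N' z τ Q c Q') (f z) k)
    (T0 S0 P' Q' : St ℕ n → Bx n) (τ c : St ℕ n → Fin n → ℕ)
    (hview : ∀ v ∈ A, ∀ z ∈ Z, v ∈ P z → ∀ σ σ', LocT P E R A v σ σ' →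
      T0 σ = T0 σ' ∧ S0 σ = S0 σ' ∧ (v = x → P' σ = P' σ' ∧ c σ = c σ') ∧
        (v ≠ x → τ σ = τ σ' ∧ Q' σ = Q' σ'))
    (hgd : ∀ σ, GoodT P E L M q A σ → (∀ k, τ σ k ∈ P' σ k ∧ c σ k ∈ Q' σ k ∧ P' σ k ⊆ T0 σ k ∧
      Q' σ k ⊆ S0 σ k ∧ (P' σ k).card = L ∧ (Q' σ k).card = L ∧ (T0 σ k).card ≤ M ∧
      (S0 σ k).card ≤ M) ∧
      (∀ v ∈ A, ∀ z ∈ Z, v ∈ P z → v = x → σ.c v = τ σ ∧ ∀ k, σ.N v k ⊆ T0 σ k) ∧
      (∀ v ∈ A, ∀ z ∈ Z, v ∈ P z → v ≠ x → σ.c v = c σ ∧ ∀ k, σ.N v k ⊆ S0 σ k)) :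
    ∃ σ, GoodT P E L M q (A ∪ Z) σ ∧ ∀ v ∈ A ∪ Z, ∀ k, σ.c v k ∉ h v σ k := by
  classical
  choose f V A' B' N' hK using hK
  refine beat_stepT hsym hd hch hR hA h hl hg (fun σ z => f (T0 σ) (S0 σ) z)
    (fun σ z => N' (T0 σ) (S0 σ) z (τ σ) (P' σ) (c σ) (Q' σ))
    (fun σ z => V (T0 σ) (S0 σ) z (τ σ) (c σ))
    (fun σ z v => if v = x then A' (T0 σ) (S0 σ) z (P' σ) (c σ)
      else B' (T0 σ) (S0 σ) z (τ σ) (Q' σ))
    (fun σ _ v => if v = x then T0 σ else S0 σ) ?_ ?_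
  · intro v hv z hz hvz σ σ' hL
    obtain ⟨h1, h2, h3, h4⟩ := hview v hv z hz hvz σ σ' hL
    by_cases hvx : v = x
    · obtain ⟨h5, h6⟩ := h3 hvx
      simp only [if_pos hvx, h1, h2, h5, h6]
      exact ⟨trivial, trivial, trivial⟩
    · obtain ⟨h5, h6⟩ := h4 hvx
      simp only [if_neg hvx, h1, h2, h5, h6]
      exact ⟨trivial, trivial, trivial⟩
  · intro σ hσ z hz
    obtain ⟨h1, h2, h3⟩ := hgd σ hσ
    obtain ⟨h4, h5, h6, h6', h7⟩ := hK (T0 σ) (S0 σ) (fun k => (h1 k).2.2.2.2.2.2.1)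
      (fun k => (h1 k).2.2.2.2.2.2.2) z hz
    obtain ⟨h8, h9⟩ := h7 (τ σ) (P' σ) (c σ) (Q' σ) (fun k => (h1 k).1) (fun k => (h1 k).2.1)
      (fun k => (h1 k).2.2.1) (fun k => (h1 k).2.2.2.1) (fun k => (h1 k).2.2.2.2.1)
      (fun k => (h1 k).2.2.2.2.2.1)
    refine ⟨fun k => ⟨(h8 k).1, (h8 k).2.1, h4 k⟩, ?_, ?_, ?_⟩
    · intro v hv hvz k
      by_cases hvx : v = x
      · simp only [if_pos hvx]
        exact ⟨(h8 k).2.2.1, h5 _ _ k, (h2 v hv z hz hvz hvx).2 k, (h1 k).2.2.2.2.2.2.1⟩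
      · simp only [if_neg hvx]
        exact ⟨(h8 k).2.2.2.1, h6 _ _ k, (h3 v hv z hz hvz hvx).2 k, (h1 k).2.2.2.2.2.2.2⟩
    · intro k
      exact ⟨(h8 k).2.2.2.2, h6' _ _ k⟩
    · intro k
      have h10 := h9 k
      have h11 : h z (extT σ Z (fun z => f (T0 σ) (S0 σ) z)
          (fun z => N' (T0 σ) (S0 σ) z (τ σ) (P' σ) (c σ) (Q' σ))
          (fun z => V (T0 σ) (S0 σ) z (τ σ) (c σ))
          (fun z v => if v = x then A' (T0 σ) (S0 σ) z (P' σ) (c σ)
            else B' (T0 σ) (S0 σ) z (τ σ) (Q' σ))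
          (fun _ v => if v = x then T0 σ else S0 σ)) k =
          kv h Z x (T0 σ) (S0 σ) z (τ σ) (c σ)
            (fun u => (f (T0 σ) (S0 σ) u, V (T0 σ) (S0 σ) u (τ σ) (c σ)))
            (A' (T0 σ) (S0 σ) z (P' σ) (c σ)) (B' (T0 σ) (S0 σ) z (τ σ) (Q' σ))
            (V (T0 σ) (S0 σ) z (τ σ) (c σ))
            (N' (T0 σ) (S0 σ) z (τ σ) (P' σ) (c σ) (Q' σ)) (f (T0 σ) (S0 σ) z) k := by
        apply hl z (mem_union_right A hz)
        · refine ⟨?_, ?_, ?_⟩
          · simp only [extT, stt, if_pos hz]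
          · intro u hu huz
            by_cases huZ : u ∈ Z
            · have huE : E z u := by
                rcases huz with h1 | h1 | h1
                · exact absurd h1 (fun h2 => hd u (hPA z hz h2) huZ)
                · exact absurd h1 (hch z hz u hu)
                · exact h1
              have huz' : u ≠ z := by
                rintro rfl
                exact hEz u huE
              simp only [extT, stt, if_pos hz, if_pos huZ, if_neg huz', if_true]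
              exact ⟨trivial, trivial, trivial⟩
            · have hu1 : u ∈ P z := by
                rcases huz with h1 | h1 | h1
                · exact h1
                · exact absurd h1 (hch z hz u hu)
                · rcases mem_union.1 hu with h2 | h2
                  · exact absurd h1 (hR z hz u h2).2.2
                  · exact absurd h2 huZ
              have huA : u ∈ A := hPA z hz hu1
              have huz' : u ≠ z := by
                rintro rfl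
                exact huZ hz
              by_cases hux : u = x
              · have e1 := (h2 u huA z hz hu1 hux).1
                simp only [extT, stt, if_pos hz, if_neg huZ, if_neg huz', if_pos hux, if_true]
                exact ⟨e1, trivial, trivial⟩
              · have e1 := (h3 u huA z hz hu1 hux).1
                simp only [extT, stt, if_pos hz, if_neg huZ, if_neg huz', if_neg hux, if_true]
                exact ⟨e1, trivial, trivial⟩
          · intro u hu huz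
            have huZ : u ∈ Z := by
              rcases mem_union.1 hu with h1 | h1
              · exact absurd huz (hR z hz u h1).1
              · exact h1
            have huz' : u ≠ z := by
              rintro rfl
              exact hRz u hz huz
            simp only [extT, stt, if_pos huZ, if_neg huz']
        · intro j _
          simp only [extT, stt, if_pos hz, if_true]
      change f (T0 σ) (S0 σ) z k ∉ h z (extT σ Z (fun z => f (T0 σ) (S0 σ) z)
          (fun z => N' (T0 σ) (S0 σ) z (τ σ) (P' σ) (c σ) (Q' σ))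
          (fun z => V (T0 σ) (S0 σ) z (τ σ) (c σ))
          (fun z v => if v = x then A' (T0 σ) (S0 σ) z (P' σ) (c σ)
            else B' (T0 σ) (S0 σ) z (τ σ) (Q' σ))
          (fun _ v => if v = x then T0 σ else S0 σ)) k
      rw [h11]
      exact h10

theorem rowG19 (hSU : RowSU) : RowG := by
  classical
  intro n s
  obtain ⟨M, q, hLM, hq, hX⟩ := hSU n s n (n * (n + 1) + 2 * n)
  refine ⟨M, q, hq, ?_⟩
  intro P E R ρ A Z P0 hdisj hP0A hP0c hsym hEz hZP hP0 hch hR hdeg hρ hρ2 hρ3 hA h hl hg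
  have hd : ∀ v ∈ A, v ∉ Z := fun v hv hvZ => Finset.disjoint_left.1 hdisj hv hvZ
  have hPA : ∀ z ∈ Z, P z ⊆ A := fun z hz => by rw [hZP z hz]; exact hP0A
  have hRz : ∀ z ∈ Z, ¬ R z z := fun z hz hr => hρ2 z hz z hz hr rfl
  have hrL : ∀ _k : Fin n, (range (n * s + 1)).card = n * s + 1 := fun _ => card_range _
  have h0r : (0 : ℕ) ∈ range (n * s + 1) := mem_range.2 (Nat.succ_pos _)
  obtain ⟨ρ', hgrp⟩ := exists_grp19 E R hsym hEz n Z ρ hdeg hρ hρ2 hρ3
  have hK : ∀ x : ℕ, ∀ T S : Bx n, ∃ (f : ℕ → Fin n → ℕ)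
      (V : ℕ → (Fin n → ℕ) → (Fin n → ℕ) → Bx n)
      (A' : ℕ → Bx n → (Fin n → ℕ) → Bx n) (B' : ℕ → (Fin n → ℕ) → Bx n → Bx n)
      (N' : ℕ → (Fin n → ℕ) → Bx n → (Fin n → ℕ) → Bx n → Bx n), (∀ k, (T k).card ≤ M) →
      (∀ k, (S k).card ≤ M) → ∀ z ∈ Z,
      (∀ k, f z k < q) ∧ (∀ Q c k, (A' z Q c k).card ≤ M) ∧ (∀ τ Q k, (B' z τ Q k).card ≤ M) ∧
      (∀ τ c k, (V z τ c k).card ≤ M) ∧
      ∀ τ Q c Q', (∀ k, τ k ∈ Q k) → (∀ k, c k ∈ Q' k) → (∀ k, Q k ⊆ T k) → (∀ k, Q' k ⊆ S k) →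
        (∀ k, (Q k).card = n * s + 1) → (∀ k, (Q' k).card = n * s + 1) →
        (∀ k, f z k ∈ N' z τ Q c Q' k ∧ (N' z τ Q c Q' k).card = n * s + 1 ∧
          N' z τ Q c Q' k ⊆ A' z Q c k ∧ N' z τ Q c Q' k ⊆ B' z τ Q' k ∧
          N' z τ Q c Q' k ⊆ V z τ c k) ∧
        ∀ k, f z k ∉ kv h Z x T S z τ c (fun u => (f u, V u τ c)) (A' z Q c) (B' z τ Q') (V z τ c)
          (N' z τ Q c Q') (f z) k := by
    intro x T0 S0
    by_cases hh : (∀ k, (T0 k).card ≤ M) ∧ (∀ k, (S0 k).card ≤ M)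
    · obtain ⟨f, V, A', B', N', h1⟩ := hX Z E R ρ' hgrp T0 S0 hh.1 hh.2
        (fun z τ c => kv h Z x T0 S0 z τ c)
        (kv_ok (A := A) hch hEz hRz h hl hg x T0 S0)
        (kv_dep (A := A) hd hch hPA hR h hl x T0 S0)
      exact ⟨f, V, A', B', N', fun _ _ => h1⟩
    · exact ⟨fun _ _ => 0, fun _ _ _ => fun _ => ∅, fun _ _ _ => fun _ => ∅,
        fun _ _ _ => fun _ => ∅, fun _ _ _ _ _ => fun _ => ∅,
        fun h1 h2 => absurd ⟨h1, h2⟩ hh⟩
  obtain ⟨k, hk⟩ : ∃ k, P0.card = k := ⟨_, rfl⟩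
  have hk2 : k = 0 ∨ k = 1 ∨ k = 2 := by omega
  rcases hk2 with rfl | rfl | rfl
  · -- no parent
    have hno : ∀ z ∈ Z, ∀ v, v ∉ P z := by
      intro z hz v hv
      rw [hZP z hz, Finset.card_eq_zero.1 hk] at hv
      exact absurd hv (notMem_empty v)
    exact group_extT hsym hEz hd hch hPA hR hRz hA h hl hg 0 (hK 0)
      (fun _ _ => range (n * s + 1)) (fun _ _ => range (n * s + 1))
      (fun _ _ => range (n * s + 1)) (fun _ _ => range (n * s + 1)) (fun _ _ => 0) (fun _ _ => 0)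
      (fun v _ z hz hvz => absurd hvz (hno z hz v))
      (fun σ _ => ⟨fun k => ⟨h0r, h0r, Finset.Subset.refl _, Finset.Subset.refl _, hrL k, hrL k,
        by rw [card_range]; exact hLM.le, by rw [card_range]; exact hLM.le⟩,
        fun v _ z hz hvz => absurd hvz (hno z hz v), fun v _ z hz hvz => absurd hvz (hno z hz v)⟩)
  · -- one parent
    obtain ⟨x, hx⟩ := Finset.card_eq_one.1 hk
    have hxA : x ∈ A := hP0A (by rw [hx]; exact mem_singleton_self x)
    have hno : ∀ z ∈ Z, ∀ v, v ∈ P z → v = x := by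
      intro z hz v hv
      rw [hZP z hz, hx] at hv
      exact mem_singleton.1 hv
    refine group_extT hsym hEz hd hch hPA hR hRz hA h hl hg x (hK x)
      (fun σ => σ.N x) (fun _ _ => range (n * s + 1))
      (fun σ => σ.N x) (fun _ _ => range (n * s + 1)) (fun σ => σ.c x) (fun _ _ => 0) ?_ ?_
    · intro v _ z hz hvz σ σ' hL
      have hvx := hno z hz v hvz
      subst hvx
      exact ⟨hL.1, rfl, fun _ => ⟨hL.1, rfl⟩, fun hh => absurd rfl hh⟩
    · intro σ hσ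
      have hx1 := hσ.1 x hxA
      refine ⟨fun k => ⟨(hx1 k).1, h0r, Finset.Subset.refl _, Finset.Subset.refl _, (hx1 k).2.1,
        hrL k, by rw [(hx1 k).2.1]; exact hLM.le, by rw [card_range]; exact hLM.le⟩, ?_, ?_⟩
      · intro v _ z hz hvz hvx
        subst hvx
        exact ⟨rfl, fun k => Finset.Subset.refl _⟩
      · intro v _ z hz hvz hvx
        exact absurd (hno z hz v hvz) hvx
  · -- two parents
    obtain ⟨x, y, hxy, hx⟩ := Finset.card_eq_two.1 hk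
    have hxP : x ∈ P0 := by rw [hx]; exact mem_insert_self x _
    have hyP : y ∈ P0 := by rw [hx]; exact mem_insert_of_mem (mem_singleton_self y)
    have hxA : x ∈ A := hP0A hxP
    have hyA : y ∈ A := hP0A hyP
    have hyx : y ≠ x := hxy.symm
    have hno : ∀ z ∈ Z, ∀ v, v ∈ P z → v = x ∨ v = y := by
      intro z hz v hv
      rw [hZP z hz, hx, mem_insert, mem_singleton] at hv
      exact hv
    have hTxy : y ∈ P x ∨ x ∈ P y ∨ E x y := by
      rcases lt_or_gt_of_ne hxy with h1 | h1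
      · rcases hP0 x hxP y hyP h1 with h2 | h2
        · exact Or.inr (Or.inl h2)
        · exact Or.inr (Or.inr h2)
      · rcases hP0 y hyP x hxP h1 with h2 | h2
        · exact Or.inl h2
        · exact Or.inr (Or.inr (hsym _ _ h2))
    have hTyx : x ∈ P y ∨ y ∈ P x ∨ E y x := by
      rcases hTxy with h1 | h1 | h1
      · exact Or.inr (Or.inl h1)
      · exact Or.inl h1
      · exact Or.inr (Or.inr (hsym _ _ h1))
    refine group_extT hsym hEz hd hch hPA hR hRz hA h hl hg x (hK x)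
      (fun σ => σ.b x y) (fun σ => σ.b y x) (fun σ => σ.N x) (fun σ => σ.N y) (fun σ => σ.c x)
      (fun σ => σ.c y) ?_ ?_
    · intro v _ z hz hvz σ σ' hL
      rcases hno z hz v hvz with hvx | hvx
      · subst hvx
        obtain ⟨h1, h2, h3⟩ := hL.2.1 y hyA hTxy
        exact ⟨h2, h3, fun _ => ⟨hL.1, h1⟩, fun hh => absurd rfl hh⟩
      · subst hvx
        obtain ⟨h1, h2, h3⟩ := hL.2.1 x hxA hTyx
        exact ⟨h3, h2, fun hh => absurd hh hyx, fun _ => ⟨h1, hL.1⟩⟩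
    · intro σ hσ
      have hx1 := hσ.1 x hxA
      have hy1 := hσ.1 y hyA
      have hb1 := hσ.2 x hxA y hyA (by
        rcases hTxy with h1 | h1 | h1
        · exact Or.inr (Or.inl h1)
        · exact Or.inl h1
        · exact Or.inr (Or.inr h1))
      have hb2 := hσ.2 y hyA x hxA (by
        rcases hTyx with h1 | h1 | h1
        · exact Or.inr (Or.inl h1)
        · exact Or.inl h1
        · exact Or.inr (Or.inr h1))
      refine ⟨fun k => ⟨(hx1 k).1, (hy1 k).1, (hb1 k).1, (hb2 k).1, (hx1 k).2.1, (hy1 k).2.1,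
        (hb1 k).2, (hb2 k).2⟩, ?_, ?_⟩
      · intro v _ z hz hvz hvx
        subst hvx
        exact ⟨rfl, fun k => (hb1 k).1⟩
      · intro v _ z hz hvz hvx
        rcases hno z hz v hvz with h1 | h1
        · exact absurd h1 hvx
        · subst h1
          exact ⟨rfl, fun k => (hb2 k).1⟩

end Pool.Agent.Lib.MP_994fee_co.TwT
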