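import Pool.Agent.Lib.MP_994fee_co.TwT.Defs19
import Pool.Agent.Lib.MP_994fee_co.Pair.Layers

/-!
# Layers: the final theorem from ROW O
-/

namespace Pool.Agent.Lib.MP_994fee_co

open Finset TL

namespace TwT

lemma torsoLevels19 (hO : RowO) (n : ℕ) : ∀ M s : ℕ, ∃ q : ℕ, ∀ {V : Type} [Fintype V]
    [DecidableEq V] (G : SimpleGraph V) (X : Finset V) (lev : V → ℕ), (∀ v ∈ X, lev v < M) →
    (∀ v ∈ X, {w | w ∈ X ∧ G.Adj v w ∧ lev w < lev v}.ncard ≤ n) →
    (∀ i, TorsoOn n G (X.filter (fun v => lev v = i))) → LosesOn G X s q := by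
  intro M
  induction M with
  | zero =>
    intro s
    refine ⟨1, ?_⟩
    intro V _ _ G X lev h1 _ _ g _ _
    exact ⟨fun _ => 0, fun _ => Nat.zero_lt_one, fun v hv => absurd (h1 v hv) (Nat.not_lt_zero _)⟩
  | succ M ih =>
    intro s
    obtain ⟨K₁, hK₁, hT⟩ := hO n s
    obtain ⟨K₂, hK₂⟩ := ih (s * K₁ ^ n)
    refine ⟨max K₁ K₂, ?_⟩
    intro V _ _ G X lev h1 h2 h3
    have hsd : ∀ v, v ∈ X \ X.filter (fun v => lev v = 0) ↔ v ∈ X ∧ lev v ≠ 0 := by
      intro v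
      rw [Finset.mem_sdiff, Finset.mem_filter]
      tauto
    refine LosesOn.step (Y := X.filter (fun v => lev v = 0)) (Finset.filter_subset _ _)
      (B := n) ?_ hK₁ (hT G _ (h3 0)) ?_
    · intro x hx
      obtain ⟨hxX, hx0⟩ := (hsd x).1 hx
      refine le_trans (Set.ncard_le_ncard ?_ (Set.toFinite _)) (h2 x hxX)
      rintro w ⟨hw, hxw⟩
      have := Finset.mem_filter.1 hw
      exact ⟨this.1, hxw, by rw [this.2]; omega⟩
    · refine hK₂ G _ (fun v => lev v - 1) ?_ ?_ ?_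
      · intro v hv
        obtain ⟨hvX, hv0⟩ := (hsd v).1 hv
        have := h1 v hvX
        show lev v - 1 < M
        omega
      · intro v hv
        obtain ⟨hvX, hv0⟩ := (hsd v).1 hv
        refine le_trans (Set.ncard_le_ncard ?_ (Set.toFinite _)) (h2 v hvX)
        rintro w ⟨hw, hvw, hlt⟩
        obtain ⟨hwX, hw0⟩ := (hsd w).1 hw
        have hlt' : lev w - 1 < lev v - 1 := hlt
        exact ⟨hwX, hvw, by omega⟩
      · intro i
        have : (X \ X.filter (fun v => lev v = 0)).filter (fun v => lev v - 1 = i) =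
            X.filter (fun v => lev v = i + 1) := by
          ext v
          rw [Finset.mem_filter, hsd, Finset.mem_filter]
          constructor
          · rintro ⟨⟨h4, h5⟩, h6⟩
            exact ⟨h4, by omega⟩
          · rintro ⟨h4, h5⟩
            exact ⟨⟨h4, by omega⟩, by omega⟩
        rw [this]
        exact h3 (i + 1)

/-- The structure of an induced subgraph. -/
lemma torsoOn_of_induce19 {V : Type} [Fintype V] [DecidableEq V] {n : ℕ} (hn : 0 < n)
    {G : SimpleGraph V} {lev : V → ℕ} {i : ℕ} (h : TorsoTree n (G.induce {v | lev v = i})) :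
    TorsoOn n G (Finset.univ.filter (fun v => lev v = i)) := by
  classical
  obtain ⟨m, β, P, T, ρ, hlt, hP2, htr, hTP, hTn, hβ, hρ, hG, hs⟩ := h
  have hlev : ∀ v ∈ (Finset.univ.filter (fun v => lev v = i)), lev v = i :=
    fun v hv => (Finset.mem_filter.1 hv).2
  let b : V → ℕ := fun v => if h : lev v = i then (β ⟨v, h⟩ : ℕ) else 0
  have hb : ∀ (v : V) (hv : lev v = i), b v = (β ⟨v, hv⟩ : ℕ) := by
    intro v hv
    simp only [b, hv, dif_pos]
  let Q : ℕ → Finset ℕ := fun j => if h : j < m then (P ⟨j, h⟩).map Fin.valEmbedding else ∅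
  have hQ : ∀ (j : ℕ) (hj : j < m), Q j = (P ⟨j, hj⟩).map Fin.valEmbedding := by
    intro j hj
    simp only [Q, hj, dif_pos]
  have hQF : ∀ j : Fin m, Q j = (P j).map Fin.valEmbedding := fun j => hQ j j.2
  have hQ0 : ∀ j : ℕ, ¬ j < m → Q j = ∅ := by
    intro j hj
    simp only [Q, dif_neg hj]
  have hmem : ∀ (j : Fin m) (k : ℕ), k ∈ Q j ↔ ∃ l ∈ P j, (l : ℕ) = k := by
    intro j k
    rw [hQF, Finset.mem_map]
    rfl
  have hmem' : ∀ j k : Fin m, (k : ℕ) ∈ Q j ↔ k ∈ P j := by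
    intro j k
    rw [hmem]
    constructor
    · rintro ⟨l, hl, hlk⟩
      rw [← Fin.ext hlk]
      exact hl
    · intro hk
      exact ⟨k, hk, rfl⟩
  have hQlt : ∀ i j, j ∈ Q i → i < m ∧ j < m := by
    intro i j hj
    by_cases hi : i < m
    · obtain ⟨l, _, hl⟩ := (hmem ⟨i, hi⟩ j).1 hj
      exact ⟨hi, hl ▸ l.2⟩
    · rw [hQ0 i hi] at hj
      exact absurd hj (Finset.notMem_empty j)
  have hQinj : ∀ i j : Fin m, Q i = Q j → P i = P j := by
    intro i j hij
    rw [hQF, hQF] at hij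
    exact Finset.map_injective _ hij
  let r : ℕ → ℕ := fun j => if h : j < m then ρ ⟨j, h⟩ else 0
  have hr : ∀ (j : ℕ) (hj : j < m), r j = ρ ⟨j, hj⟩ := by
    intro j hj
    simp only [r, hj, dif_pos]
  have hrF : ∀ j : Fin m, r j = ρ j := fun j => hr j j.2
  let em : Fin m ↪ ℕ := ⟨Fin.val, Fin.val_injective⟩
  have hmap : ∀ (x y : Fin m), (T.map em).Adj x y ↔ T.Adj x y := by
    intro x y
    rw [SimpleGraph.map_adj]
    constructor
    · rintro ⟨x', y', hxy, h1, h2⟩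
      rw [← Fin.ext h1, ← Fin.ext h2]
      exact hxy
    · intro h
      exact ⟨_, _, h, rfl, rfl⟩
  have hmapl : ∀ (i j : ℕ), (T.map em).Adj i j → ∃ x y : Fin m, (x : ℕ) = i ∧ (y : ℕ) = j ∧
      T.Adj x y := by
    intro i j h
    obtain ⟨x, y, hxy, h1, h2⟩ := (SimpleGraph.map_adj em T i j).1 h
    exact ⟨x, y, h1, h2, hxy⟩
  refine ⟨b, Q, T.map em, r, range m, ?_, ?_, ?_, ?_, ?_, ?_, ?_, ?_, ?_, ?_, ?_⟩
  · intro v hv
    rw [hb v (hlev v hv)]
    exact mem_range.2 (β _).2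
  · intro j k hk
    obtain ⟨hj, hkm⟩ := hQlt j k hk
    have := (hmem' ⟨j, hj⟩ ⟨k, hkm⟩).1 hk
    exact hlt _ _ this
  · intro j _ k hk
    exact mem_range.2 (hQlt j k hk).2
  · intro j
    by_cases hj : j < m
    · rw [hQ j hj, Finset.card_map]
      exact hP2 _
    · rw [hQ0 j hj, Finset.card_empty]
      exact Nat.zero_le 2
  · intro j k hk l hl hkl
    obtain ⟨hj, hkm⟩ := hQlt j k hk
    obtain ⟨_, hlm⟩ := hQlt j l hl
    have h1 := (hmem' ⟨j, hj⟩ ⟨k, hkm⟩).1 hk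
    have h2 := (hmem' ⟨j, hj⟩ ⟨l, hlm⟩).1 hl
    rcases htr _ _ h1 _ h2 hkl with h3 | h3
    · exact Or.inl ((hmem' ⟨l, hlm⟩ ⟨k, hkm⟩).2 h3)
    · exact Or.inr ((hmap ⟨k, hkm⟩ ⟨l, hlm⟩).2 h3)
  · intro i' j hij
    obtain ⟨x, y, rfl, rfl, hxy⟩ := hmapl i' j hij
    rw [hQF, hQF, hTP x y hxy]
  · intro i' W hW
    rcases W.eq_empty_or_nonempty with h0 | ⟨w0, hw0⟩
    · rw [h0, card_empty]
      exact Nat.zero_le n
    · obtain ⟨x, _, rfl, _, _⟩ := hmapl i' w0 (hW w0 hw0)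
      refine le_trans ?_ (hTn x)
      rw [← Set.ncard_image_of_injective _ Fin.val_injective, ← Set.ncard_coe_finset]
      refine Set.ncard_le_ncard ?_ (Set.toFinite _)
      intro w hw
      obtain ⟨x', y', h1, h2, hxy⟩ := hmapl _ w (hW w (Finset.mem_coe.1 hw))
      rw [Fin.ext h1] at hxy
      exact ⟨y', hxy, h2⟩
  · intro j W hW hW2
    rcases W.eq_empty_or_nonempty with h0 | ⟨w0, hw0⟩
    · rw [h0, card_empty]
      exact Nat.zero_le n
    · have hw0' := hlev w0 (hW hw0)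
      have hj := hW2 w0 hw0
      rw [hb w0 hw0'] at hj
      refine le_trans ?_ (hβ (β ⟨w0, hw0'⟩))
      rw [← Set.ncard_image_of_injective _
        (Subtype.val_injective (p := fun v => v ∈ {v | lev v = i})), ← Set.ncard_coe_finset]
      refine Set.ncard_le_ncard ?_ (Set.toFinite _)
      intro w hw
      have hw1 := Finset.mem_coe.1 hw
      have hw' := hlev w (hW hw1)
      have h1 := hW2 w hw1
      rw [hb w hw'] at h1
      exact ⟨⟨w, hw'⟩, Fin.ext (h1.trans hj.symm), rfl⟩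
  · intro j
    by_cases hj : j < m
    · rw [hr j hj]
      exact hρ _
    · simp only [r, dif_neg hj]
      exact hn
  · intro v hv w hw hvw
    have hv' := hlev v hv
    have hw' := hlev w hw
    rw [hb v hv', hb w hw', hmem', hmem']
    rcases hG ⟨v, hv'⟩ ⟨w, hw'⟩ hvw with h | h | h | h | ⟨h, h'⟩
    · exact Or.inl (congrArg Fin.val h)
    · exact Or.inr (Or.inl h)
    · exact Or.inr (Or.inr (Or.inl h))
    · exact Or.inr (Or.inr (Or.inr (Or.inl ((hmap _ _).2 h))))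
    · refine Or.inr (Or.inr (Or.inr (Or.inr ⟨?_, ?_⟩)))
      · rw [hQF, hQF, h]
      · rw [hrF, hrF]
        exact h'
  · intro j W hW
    rcases W.eq_empty_or_nonempty with h0 | ⟨j0, hj0⟩
    · rw [h0, card_empty]
      exact Nat.zero_le n
    · obtain ⟨_, _, v0, hv0, _, _, _, hvj, _⟩ := hW j0 hj0
      have hv0' := hlev v0 hv0
      rw [hb v0 hv0'] at hvj
      subst hvj
      refine le_trans ?_ (hs (β ⟨v0, hv0'⟩))
      rw [← Set.ncard_image_of_injective _ Fin.val_injective, ← Set.ncard_coe_finset]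
      refine Set.ncard_le_ncard ?_ (Set.toFinite _)
      intro j' hj'
      obtain ⟨h1, h2, v, hv, w, hw, hvw, hvj, hwj⟩ := hW j' (Finset.mem_coe.1 hj')
      have hv' := hlev v hv
      have hw' := hlev w hw
      rw [hb v hv'] at hvj
      rw [hb w hw'] at hwj
      subst hwj
      refine ⟨β ⟨w, hw'⟩, ⟨hQinj _ _ h1, ?_, ⟨v, hv'⟩, ⟨w, hw'⟩, hvw, Fin.ext hvj, rfl⟩, rfl⟩
      rw [hrF, hrF] at h2
      exact h2

/-- ROW L. -/
theorem rowL19 (hO : RowO) (n : ℕ) : ∃ q₀ : ℕ, ∀ (V : Type) [Fintype V] (G : SimpleGraph V),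
    TorsoTreeLayered n G → ∀ q : ℕ, (∃ s, IsWinning G q s) → q < q₀ := by
  classical
  rcases Nat.eq_zero_or_pos n with hn | hn
  · subst hn
    refine ⟨2, ?_⟩
    rintro V _ G ⟨lev, h1, _, _⟩ q hst
    by_contra hq
    refine Pair.not_winning (q₀ := 1) ?_ (q := q) (by omega) (by omega) hst
    intro g _ _
    exact ⟨fun _ => 0, fun _ => Nat.zero_lt_one, fun v _ => absurd (h1 v) (Nat.not_lt_zero _)⟩
  obtain ⟨q₀, hq₀⟩ := torsoLevels19 hO n n 1
  refine ⟨q₀ + 1, ?_⟩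
  rintro V _ G ⟨lev, h1, h2, h3⟩ q hst
  by_contra hq
  refine Pair.not_winning (q₀ := q₀) ?_ (q := q) (by omega) (by omega) hst
  apply hq₀ G Finset.univ lev (fun v _ => h1 v)
  · intro v _
    refine le_trans (Set.ncard_le_ncard ?_ (Set.toFinite _)) (h2 v)
    rintro w ⟨_, hw⟩
    exact hw
  · intro i
    exact torsoOn_of_induce19 hn (h3 i)

end TwT

end Pool.Agent.Lib.MP_994fee_co
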