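import Pool.Agent.Lib.MP_994fee_co.TwT.Defs19
import Pool.Agent.Lib.MP_994fee_co.TwS.RowO19

/-!
# From the groups to the whole structure
-/

namespace Pool.Agent.Lib.MP_994fee_co

open Finset TL

namespace TwT

open TwB

/-- The players are beaten on every set of blocks closed under parents. -/
lemma beat_all19 {n s M q : ℕ} (P : ℕ → Finset ℕ) (E R : ℕ → ℕ → Prop) (ρ : ℕ → ℕ)
    (hG : ∀ (P : ℕ → Finset ℕ) (E R : ℕ → ℕ → Prop)
      (ρ : ℕ → ℕ) (A Z P0 : Finset ℕ), Disjoint A Z → P0 ⊆ A → P0.card ≤ 2 →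
      (∀ i j, E i j → E j i) → (∀ i, ¬ E i i) →
      (∀ z ∈ Z, P z = P0) → (∀ j ∈ P0, ∀ k ∈ P0, j < k → j ∈ P k ∨ E j k) →
      (∀ z ∈ Z, ∀ u ∈ A ∪ Z, z ∉ P u) → (∀ z ∈ Z, ∀ u ∈ A, ¬ R z u ∧ ¬ R u z ∧ ¬ E z u) →
      (∀ z ∈ Z, ∀ W ⊆ Z, (∀ u ∈ W, E z u) → W.card ≤ n) →
      (∀ z ∈ Z, ρ z < n) → (∀ z ∈ Z, ∀ z' ∈ Z, R z z' → ρ z ≠ ρ z') →
      (∀ z ∈ Z, ∀ W ⊆ Z, (∀ z' ∈ W, R z z' ∧ ρ z' < ρ z) → W.card ≤ n) →
      BeatT P E R n s (n * s + 1) M q A → BeatT P E R n s (n * s + 1) M q (A ∪ Z))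
    (hsym : ∀ i j, E i j → E j i) (hEz : ∀ i, ¬ E i i)
    (hEP : ∀ i j, E i j → P i = P j) (hEn : ∀ i, ∀ W : Finset ℕ, (∀ j ∈ W, E i j) → W.card ≤ n)
    (hP : ∀ i, ∀ j ∈ P i, j < i) (hP2 : ∀ i, (P i).card ≤ 2)
    (hPP : ∀ i, ∀ j ∈ P i, ∀ k ∈ P i, j < k → j ∈ P k ∨ E j k) (hρ : ∀ i, ρ i < n)
    (hR : ∀ i j, R i j → P j = P i ∧ ρ i ≠ ρ j)
    (hRn : ∀ i, ∀ W : Finset ℕ, (∀ j ∈ W, R i j ∧ ρ j < ρ i) → W.card ≤ n)
    (dep : ℕ → ℕ) (hd1 : ∀ i, ∀ j ∈ P i, dep j < dep i)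
    (hd2 : ∀ i i', P i = P i' → dep i = dep i') :
    ∀ (N : ℕ) (A : Finset ℕ), A.card = N → (∀ i ∈ A, P i ⊆ A) →
      BeatT P E R n s (n * s + 1) M q A := by
  classical
  intro N
  induction N using Nat.strong_induction_on with
  | _ N ih =>
    intro A hAN hA
    rcases A.eq_empty_or_nonempty with h0 | hne
    · subst h0
      intro h _ _
      exact ⟨⟨fun _ _ => 0, fun _ _ => ∅, fun _ _ _ => ∅⟩,
        ⟨fun v hv => absurd hv (notMem_empty v), fun v hv => absurd hv (notMem_empty v)⟩,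
        fun v hv => absurd hv (notMem_empty v)⟩
    · obtain ⟨z0, hz0, hmax⟩ := exists_max_image A dep hne
      have hZ : ∀ z ∈ A, P z = P z0 → ∀ u ∈ A, z ∉ P u := by
        intro z _ hz u hu hzu
        have h1 := hd1 u z hzu
        have h2 := hd2 z z0 hz
        have h3 := hmax u hu
        omega
      have hsplit : A = A.filter (fun z => ¬ P z = P z0) ∪ A.filter (fun z => P z = P z0) := by
        rw [union_comm, filter_union_filter_not_eq]
      have hlt : (A.filter (fun z => ¬ P z = P z0)).card < N := by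
        rw [← hAN]
        refine card_lt_card ?_
        rw [ssubset_iff_of_subset (filter_subset _ _)]
        exact ⟨z0, hz0, fun h => (mem_filter.1 h).2 rfl⟩
      have hrec := ih _ hlt (A.filter (fun z => ¬ P z = P z0)) rfl (by
        intro i hi j hj
        have hi' := mem_filter.1 hi
        have hjA := hA i hi'.1 hj
        exact mem_filter.2 ⟨hjA, fun h => hZ j hjA h i hi'.1 hj⟩)
      rw [hsplit]
      refine hG P E R ρ _ _ (P z0) ?_ ?_ (hP2 z0) hsym hEz ?_ (hPP z0) ?_ ?_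
        (fun z _ W _ hW => hEn z W hW) (fun z _ => hρ z) ?_ ?_ hrec
      · rw [disjoint_left]
        intro z hz hz'
        exact (mem_filter.1 hz).2 (mem_filter.1 hz').2
      · intro j hj
        refine mem_filter.2 ⟨hA z0 hz0 hj, fun h => ?_⟩
        rw [← h] at hj
        exact lt_irrefl _ (hP j j hj)
      · intro z hz
        exact (mem_filter.1 hz).2
      · intro z hz u hu
        rw [← hsplit] at hu
        exact hZ z (mem_filter.1 hz).1 (mem_filter.1 hz).2 u hu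
      · intro z hz u hu
        refine ⟨fun h => ?_, fun h => ?_, fun h => ?_⟩
        · exact (mem_filter.1 hu).2 ((hR z u h).1.trans (mem_filter.1 hz).2)
        · exact (mem_filter.1 hu).2 ((hR u z h).1.symm.trans (mem_filter.1 hz).2)
        · exact (mem_filter.1 hu).2 ((hEP z u h).symm.trans (mem_filter.1 hz).2)
      · intro z _ z' _ h
        exact (hR z z' h).2
      · intro z _ W _ hW
        exact hRn z W hW

/-- ROW O. -/
theorem rowO19 (hG : RowG) : RowO := by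
  classical
  intro n s
  obtain ⟨M, q, hq, hGG⟩ := hG n s
  refine ⟨q, hq, ?_⟩
  rintro V G S ⟨β, P, T, ρ, B, hβB, hP, hPB, hP2, hPP, hTP, hTn, hβn, hρ, hadj, hRn⟩ g hg hgs
  rcases S.eq_empty_or_nonempty with hS0 | ⟨v0, hv0⟩
  · subst hS0
    exact ⟨fun _ => 0, fun _ => hq, fun v hv => absurd hv (notMem_empty v)⟩
  have hn : 0 < n := by
    have h1 := hβn (β v0) {v0} (singleton_subset_iff.2 hv0) (by
      intro v hv
      rw [mem_singleton.1 hv])
    rw [card_singleton] at h1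
    exact h1
  have : Nonempty V := ⟨v0⟩
  have hcode := fun i => exists_codeB hn (S.filter (fun v => β v = i))
    (hβn i _ (filter_subset _ _) (fun v hv => (mem_filter.1 hv).2))
  choose e r her using hcode
  let ix : V → Fin n := fun v => e (β v) v
  have hix : ∀ v ∈ S, ∀ w ∈ S, β v = β w → ix v = ix w → v = w := by
    intro v hv w hw h1 h2
    have h3 := her (β v) v (mem_filter.2 ⟨hv, rfl⟩)
    have h4 := her (β v) w (mem_filter.2 ⟨hw, h1.symm⟩)
    have h5 : e (β v) v = e (β v) w := by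
      have : e (β v) v = e (β w) w := h2
      rw [this, h1]
    rw [← h3, ← h4, h5]
  let cV : St ℕ n → V → ℕ := fun σ v => if v ∈ S then σ.c (β v) (ix v) else 0
  let R : ℕ → ℕ → Prop := fun i j => P j = P i ∧ ρ i ≠ ρ j ∧
    ∃ v ∈ S, ∃ w ∈ S, G.Adj v w ∧ β v = i ∧ β w = j
  obtain ⟨dep, hd1, hd2⟩ := TwS.exists_dep19 P hP
  have hbeat := beat_all19 (s := s) P (fun i j => T.Adj i j) R ρ hGG (fun i j h => h.symm)
    (fun i h => h.ne rfl) hTP hTn hP hP2 hPP hρ (fun i j h => ⟨h.1, h.2.1⟩)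
    (fun i W hW => hRn i W (fun j hj => ⟨(hW j hj).1.1, (hW j hj).2, (hW j hj).1.2.2⟩))
    dep hd1 hd2 _ B rfl hPB
  obtain ⟨σ, h1, h2⟩ := hbeat
    (fun i σ k => if h : ∃ v, v ∈ S ∧ β v = i ∧ ix v = k then g h.choose (cV σ) else ∅)
    (by
      intro i hi k σ σ' hL hown
      by_cases h : ∃ v, v ∈ S ∧ β v = i ∧ ix v = k
      · simp only [dif_pos h]
        obtain ⟨hvS, hvi, hvk⟩ := h.choose_spec
        apply hg _ hvS
        intro u hu hvu
        simp only [cV, if_pos hu]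
        rcases hadj _ hvS u hu hvu with h3 | h3 | h3 | h3 | h3
        · have h4 : ix u ≠ k := by
            intro h5
            exact hvu.ne (hix _ hvS u hu h3 (hvk.trans h5.symm))
          rw [← h3, hvi]
          exact hown _ h4
        · rw [hvi] at h3
          rw [(hL.2.1 (β u) (hβB u hu) (Or.inr (Or.inl h3))).1]
        · rw [hvi] at h3
          rw [(hL.2.1 (β u) (hβB u hu) (Or.inl h3)).1]
        · rw [hvi] at h3
          rw [(hL.2.1 (β u) (hβB u hu) (Or.inr (Or.inr h3))).1]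
        · rw [hvi] at h3
          rw [hL.2.2 (β u) (hβB u hu) ⟨h3.1.symm, h3.2, _, hvS, u, hu, hvu, hvi, rfl⟩]
      · simp only [dif_neg h])
    (by
      intro i σ k
      by_cases h : ∃ v, v ∈ S ∧ β v = i ∧ ix v = k
      · simp only [dif_pos h]
        exact hgs _ h.choose_spec.1 _
      · simp only [dif_neg h, card_empty]
        exact Nat.zero_le s)
  refine ⟨cV σ, ?_, ?_⟩
  · intro v
    by_cases hv : v ∈ S
    · simp only [cV, if_pos hv]
      exact (h1.1 (β v) (hβB v hv) (ix v)).2.2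
    · simp only [cV, if_neg hv]
      exact hq
  · intro v hv
    have h3 := h2 (β v) (hβB v hv) (ix v)
    have h : ∃ w, w ∈ S ∧ β w = β v ∧ ix w = ix v := ⟨v, hv, rfl, rfl⟩
    have h4 : h.choose = v :=
      hix _ h.choose_spec.1 v hv h.choose_spec.2.1 h.choose_spec.2.2
    simp only [dif_pos h] at h3
    rw [h4] at h3
    have h5 : cV σ v = σ.c (β v) (ix v) := by simp only [cV, if_pos hv]
    rw [h5]
    exact h3

end TwT

end Pool.Agent.Lib.MP_994fee_co
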