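import Pool.Agent.Lib.MP_994fee_co.TwT.Defs19

/-!
# Row P: positions for all blocks of a group
-/

namespace Pool.Agent.Lib.MP_994fee_co.TwT

open Finset TwB

/-- The parameter of one block. -/
abbrev Th19 (n M K d r Q : ℕ) : Type := Fin K × Fin K ×
  (Fin (r + 1) → (Fin n → Fin Q) × (Fin n → Finset (Fin Q))) × (Fin (d + 1) → Fin n → Fin (M + 1))

theorem one_vertex19 (hF : RowF) (n M K d r Q : ℕ) (hQ : 0 < Q) : ∃ q : ℕ,
    ∀ (Z : Finset ℕ) (E R : ℕ → ℕ → Prop) (ρ : ℕ → ℕ) (z : ℕ), z ∈ Z →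
    (∀ W ⊆ Z, (∀ u ∈ W, E z u) → W.card ≤ d) → (∀ u ∈ Z, E z u ∨ R z u → ρ z ≠ ρ u) →
    (∀ W ⊆ Z, (∀ u ∈ W, (E z u ∨ R z u) ∧ ρ u < ρ z) → W.card ≤ r) →
    ∀ κ : Fin K → Fin K → Dt n → Gs n, (∀ τ c, Dep Z E R z (κ τ c)) → ∀ p : ℕ → ℕ → ℕ,
    ∃ p0 : ℕ → ℕ, StrictMono p0 ∧ (∀ j < n * (4 * M + 4), p0 j < q) ∧
      ∀ (τ c : Fin K) (D : Dt n),
      (∀ u ∈ Z, ρ z < ρ u → E z u → ∃ w : Fin n → ℕ, (∀ k, w k < M) ∧
        D u = (fun k : Fin n => p u (pos M k M), rl M (p u) (fun k => AI M (w k)))) →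
      (∀ u ∈ Z, ρ z < ρ u → R z u → (D u).1 = fun k : Fin n => p u (pos M k M)) →
      (∀ u ∈ Z, ρ u < ρ z → (E z u ∨ R z u) → (∀ k, (D u).1 k < Q) ∧
        ∀ k, ∀ y ∈ (D u).2 k, y < Q) →
      Hom M (κ τ c D) p0 := by
  classical
  obtain ⟨q, hq⟩ := hF n M (Fintype.card (Th19 n M K d r Q))
  refine ⟨q, ?_⟩
  intro Z E R ρ z hz hdeg hne hlow κ hκ p
  obtain ⟨el, rlo, hrl⟩ := exists_codeB (Nat.succ_pos r)
    (Z.filter (fun u => (E z u ∨ R z u) ∧ ρ u < ρ z))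
    ((hlow _ (filter_subset _ _) (fun u hu => (mem_filter.1 hu).2)).trans (Nat.le_succ r))
  obtain ⟨eh, rh, hrh⟩ := exists_codeB (Nat.succ_pos d) (Z.filter (fun u => E z u))
    ((hdeg _ (filter_subset _ _) (fun u hu => (mem_filter.1 hu).2)).trans (Nat.le_succ d))
  let Dθ : Th19 n M K d r Q → Dt n := fun θ u =>
    if ρ u < ρ z then (fun k => ((θ.2.2.1 (el u)).1 k : ℕ),
      fun k => ((θ.2.2.1 (el u)).2 k).image Fin.val)
    else (fun k : Fin n => p u (pos M k M), rl M (p u) (fun k => AI M (θ.2.2.2 (eh u) k : ℕ)))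
  obtain ⟨p0, h1, h2, h3⟩ := hq (fun i => κ ((Fintype.equivFin (Th19 n M K d r Q)).symm i).1
    ((Fintype.equivFin (Th19 n M K d r Q)).symm i).2.1
    (Dθ ((Fintype.equivFin (Th19 n M K d r Q)).symm i)))
  refine ⟨p0, h1, h2, ?_⟩
  intro τ c D hE hR hL
  have hw : ∀ u : ℕ, ∃ w : Fin n → ℕ, u ∈ Z → ρ z < ρ u → E z u → (∀ k, w k < M) ∧
      D u = (fun k : Fin n => p u (pos M k M), rl M (p u) (fun k => AI M (w k))) := by
    intro u
    by_cases hh : u ∈ Z ∧ ρ z < ρ u ∧ E z u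
    · obtain ⟨w, hw⟩ := hE u hh.1 hh.2.1 hh.2.2
      exact ⟨w, fun _ _ _ => hw⟩
    · exact ⟨fun _ => 0, fun a1 a2 a3 => absurd ⟨a1, a2, a3⟩ hh⟩
  choose w hw using hw
  let θ : Th19 n M K d r Q := (τ, c,
    (fun i => ((fun k => ⟨(D (rlo i)).1 k % Q, Nat.mod_lt _ hQ⟩),
      fun k => univ.filter (fun y : Fin Q => (y : ℕ) ∈ (D (rlo i)).2 k))),
    fun i k => ⟨min (w (rh i) k) M, Nat.lt_succ_of_le (min_le_right _ _)⟩)
  have hlowD : ∀ u ∈ Z, ρ u < ρ z → (E z u ∨ R z u) → Dθ θ u = D u := by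
    intro u hu hlt hER
    have hu' : u ∈ Z.filter (fun u => (E z u ∨ R z u) ∧ ρ u < ρ z) :=
      mem_filter.2 ⟨hu, hER, hlt⟩
    obtain ⟨a1, a2⟩ := hL u hu hlt hER
    simp only [Dθ, if_pos hlt, θ, hrl u hu']
    refine Prod.ext ?_ ?_
    · funext k
      exact Nat.mod_eq_of_lt (a1 k)
    · funext k
      ext y
      simp only [mem_image, mem_filter, mem_univ, true_and]
      constructor
      · rintro ⟨y', hy', rfl⟩
        exact hy'
      · intro hy
        exact ⟨⟨y, a2 k y hy⟩, hy, rfl⟩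
  have heq : κ τ c D = κ τ c (Dθ θ) := by
    apply hκ τ c
    · intro u hu hEu
      rcases lt_or_gt_of_ne (hne u hu (Or.inl hEu)) with hlt | hlt
      · have hu' : u ∈ Z.filter (fun u => E z u) := mem_filter.2 ⟨hu, hEu⟩
        obtain ⟨b1, b2⟩ := hw u hu hlt hEu
        rw [b2]
        simp only [Dθ, if_neg (not_lt.2 hlt.le), θ, hrh u hu']
        refine Prod.ext rfl ?_
        simp only
        congr 1
        funext k
        rw [min_eq_left (b1 k).le]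
      · exact (hlowD u hu hlt (Or.inl hEu)).symm
    · intro u hu hRu
      rcases lt_or_gt_of_ne (hne u hu (Or.inr hRu)) with hlt | hlt
      · rw [hR u hu hlt hRu]
        simp only [Dθ, if_neg (not_lt.2 hlt.le)]
      · rw [hlowD u hu hlt (Or.inr hRu)]
  rw [heq]
  have h4 := h3 (Fintype.equivFin (Th19 n M K d r Q) θ)
  simp only [Equiv.symm_apply_apply] at h4
  exact h4

theorem rowP19 (hF : RowF) : RowP := by
  classical
  intro n M K d r
  have hex : ∃ Qs : ℕ → ℕ, (∀ j, 0 < Qs j) ∧ Monotone Qs ∧ ∀ j : ℕ,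
    ∀ (Z : Finset ℕ) (E R : ℕ → ℕ → Prop) (ρ : ℕ → ℕ) (z : ℕ), z ∈ Z →
    (∀ W ⊆ Z, (∀ u ∈ W, E z u) → W.card ≤ d) → (∀ u ∈ Z, E z u ∨ R z u → ρ z ≠ ρ u) →
    (∀ W ⊆ Z, (∀ u ∈ W, (E z u ∨ R z u) ∧ ρ u < ρ z) → W.card ≤ r) →
    ∀ κ : Fin K → Fin K → Dt n → Gs n, (∀ τ c, Dep Z E R z (κ τ c)) → ∀ p : ℕ → ℕ → ℕ,
    ∃ p0 : ℕ → ℕ, StrictMono p0 ∧ (∀ i < n * (4 * M + 4), p0 i < Qs (j + 1)) ∧
      ∀ (τ c : Fin K) (D : Dt n),
      (∀ u ∈ Z, ρ z < ρ u → E z u → ∃ w : Fin n → ℕ, (∀ k, w k < M) ∧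
        D u = (fun k : Fin n => p u (pos M k M), rl M (p u) (fun k => AI M (w k)))) →
      (∀ u ∈ Z, ρ z < ρ u → R z u → (D u).1 = fun k : Fin n => p u (pos M k M)) →
      (∀ u ∈ Z, ρ u < ρ z → (E z u ∨ R z u) → (∀ k, (D u).1 k < Qs j) ∧
        ∀ k, ∀ y ∈ (D u).2 k, y < Qs j) →
      Hom M (κ τ c D) p0 := by
    have h1 := fun Q : ℕ => one_vertex19 hF n M K d r (Q + 1) (Nat.succ_pos Q)
    choose qq hqq using h1
    let Qs : ℕ → ℕ := fun j => Nat.rec 0 (fun _ Q => Q + qq Q + 1) j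
    have hs : ∀ j, Qs (j + 1) = Qs j + qq (Qs j) + 1 := fun _ => rfl
    refine ⟨fun j => Qs j + 1, fun j => Nat.succ_pos _, ?_, ?_⟩
    · refine monotone_nat_of_le_succ ?_
      intro j
      show Qs j + 1 ≤ Qs (j + 1) + 1
      rw [hs]
      omega
    · intro j Z E R ρ z hz a1 a2 a3 κ hκ p
      obtain ⟨p0, b1, b2, b3⟩ := hqq (Qs j) Z E R ρ z hz a1 a2 a3 κ hκ p
      refine ⟨p0, b1, ?_, b3⟩
      intro i hi
      have := b2 i hi
      show p0 i < Qs (j + 1) + 1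
      rw [hs]
      omega
  obtain ⟨Qs, hQ0, hQm, hQs⟩ := hex
  refine ⟨Qs r, ?_⟩
  rintro Z E R ρ ⟨hsym, hdeg, hρ, hne, hlow⟩ κ hκ
  have key : ∀ t : ℕ, ∃ p : ℕ → ℕ → ℕ, (∀ z, StrictMono (p z)) ∧ ∀ z ∈ Z, r ≤ ρ z + t →
      (∀ i < n * (4 * M + 4), p z i < Qs (ρ z + 1)) ∧
      ∀ (τ c : Fin K) (D : Dt n),
      (∀ u ∈ Z, ρ z < ρ u → E z u → ∃ w : Fin n → ℕ, (∀ k, w k < M) ∧
        D u = (fun k : Fin n => p u (pos M k M), rl M (p u) (fun k => AI M (w k)))) →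
      (∀ u ∈ Z, ρ z < ρ u → R z u → (D u).1 = fun k : Fin n => p u (pos M k M)) →
      (∀ u ∈ Z, ρ u < ρ z → (E z u ∨ R z u) → (∀ k, (D u).1 k < Qs (ρ z)) ∧
        ∀ k, ∀ y ∈ (D u).2 k, y < Qs (ρ z)) →
      Hom M (κ z τ c D) (p z) := by
    intro t
    induction t with
    | zero =>
      refine ⟨fun _ => id, fun _ => strictMono_id, ?_⟩
      intro z hz h
      have := hρ z hz
      omega
    | succ t ih =>
      obtain ⟨p, hp, hpt⟩ := ih
      have hnew : ∀ z : ℕ, ∃ p0 : ℕ → ℕ, StrictMono p0 ∧ (z ∈ Z →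
          (∀ i < n * (4 * M + 4), p0 i < Qs (ρ z + 1)) ∧
          ∀ (τ c : Fin K) (D : Dt n),
          (∀ u ∈ Z, ρ z < ρ u → E z u → ∃ w : Fin n → ℕ, (∀ k, w k < M) ∧
            D u = (fun k : Fin n => p u (pos M k M), rl M (p u) (fun k => AI M (w k)))) →
          (∀ u ∈ Z, ρ z < ρ u → R z u → (D u).1 = fun k : Fin n => p u (pos M k M)) →
          (∀ u ∈ Z, ρ u < ρ z → (E z u ∨ R z u) → (∀ k, (D u).1 k < Qs (ρ z)) ∧
            ∀ k, ∀ y ∈ (D u).2 k, y < Qs (ρ z)) →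
          Hom M (κ z τ c D) p0) := by
        intro z
        by_cases hz : z ∈ Z
        · obtain ⟨p0, b1, b2, b3⟩ := hQs (ρ z) Z E R ρ z hz (hdeg z hz) (hne z hz) (hlow z hz)
            (κ z) (hκ z hz) p
          exact ⟨p0, b1, fun _ => ⟨b2, b3⟩⟩
        · exact ⟨id, strictMono_id, fun h => absurd h hz⟩
      choose p0 hp0 hp1 using hnew
      have hold : ∀ u, r ≤ ρ u + t → (if r = ρ u + (t + 1) then p0 u else p u) = p u := by
        intro u hu
        rw [if_neg (by omega)]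
      refine ⟨fun z => if r = ρ z + (t + 1) then p0 z else p z, ?_, ?_⟩
      · intro z
        by_cases h : r = ρ z + (t + 1)
        · simp only [if_pos h]
          exact hp0 z
        · simp only [if_neg h]
          exact hp z
      · intro z hz hzt
        by_cases h : r = ρ z + (t + 1)
        · obtain ⟨b1, b2⟩ := hp1 z hz
          simp only [if_pos h]
          refine ⟨b1, ?_⟩
          intro τ c D c1 c2 c3
          apply b2 τ c D
          · intro u hu hlt hEu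
            have := c1 u hu hlt hEu
            rw [hold u (by omega)] at this
            exact this
          · intro u hu hlt hRu
            have := c2 u hu hlt hRu
            rw [hold u (by omega)] at this
            exact this
          · exact c3
        · obtain ⟨b1, b2⟩ := hpt z hz (by omega)
          simp only [if_neg h]
          refine ⟨b1, ?_⟩
          intro τ c D c1 c2 c3
          apply b2 τ c D
          · intro u hu hlt hEu
            have := c1 u hu hlt hEu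
            rw [hold u (by omega)] at this
            exact this
          · intro u hu hlt hRu
            have := c2 u hu hlt hRu
            rw [hold u (by omega)] at this
            exact this
          · exact c3
  obtain ⟨p, hp, hpr⟩ := key r
  have hval : ∀ z ∈ Z, ∀ i < n * (4 * M + 4), p z i < Qs (ρ z + 1) :=
    fun z hz => (hpr z hz (Nat.le_add_left _ _)).1
  have hpos : ∀ (k : Fin n) (x : ℕ), x < 4 * M + 4 → pos M k x < n * (4 * M + 4) := by
    intro k x hx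
    simp only [pos]
    have h1 : ((k : ℕ) + 1) * (4 * M + 4) ≤ n * (4 * M + 4) := Nat.mul_le_mul_right _ k.2
    rw [add_mul] at h1
    omega
  refine ⟨p, hp, ?_, ?_⟩
  · intro z hz j hj
    exact lt_of_lt_of_le (hval z hz j hj) (hQm (hρ z hz))
  · intro z hz τ c v hv
    apply (hpr z hz (Nat.le_add_left _ _)).2 τ c
    · intro u _ _ _
      exact ⟨v u, hv u, rfl⟩
    · intro u _ _ _
      rfl
    · intro u hu hlt _
      have hle : Qs (ρ u + 1) ≤ Qs (ρ z) := hQm hlt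
      refine ⟨?_, ?_⟩
      · intro k
        exact lt_of_lt_of_le (hval u hu _ (hpos k M (by omega))) hle
      · intro k y hy
        simp only [dat, rl, mem_image] at hy
        obtain ⟨x, hx, rfl⟩ := hy
        have hx2 := mem_Ico.1 hx
        exact lt_of_lt_of_le (hval u hu _ (hpos k x (by omega))) hle

end Pool.Agent.Lib.MP_994fee_co.TwT
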