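import Pool.Agent.Lib.MP_994fee_co.TwT.Defs19

/-!
# Row SU: from codes to colours
-/

namespace Pool.Agent.Lib.MP_994fee_co.TwT

open Finset TwB

theorem rowSU19 (hSC : RowSC) : RowSU := by
  classical
  intro n s d r
  obtain ⟨M, q, hLM, hq, h⟩ := hSC n s d r
  refine ⟨M, q, hLM, hq, ?_⟩
  intro Z E R ρ hgrp T S hT hS κ hκ hκd
  have hM : 0 < M := by omega
  have hK : 0 < M ^ n := Nat.pow_pos hM
  have hcT : ∀ T : Bx n, (∀ k, (T k).card ≤ M) → (Fintype.piFinset T).card ≤ M ^ n := by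
    intro T hT
    rw [Fintype.card_piFinset]
    calc ∏ k, (T k).card ≤ ∏ _k : Fin n, M := Finset.prod_le_prod' (fun k _ => hT k)
      _ = M ^ n := by rw [prod_const, card_univ, Fintype.card_fin]
  have hcL : ∀ T : Bx n, (∀ k, (T k).card = n * s + 1) →
      (Fintype.piFinset T).card = (n * s + 1) ^ n := by
    intro T hT
    rw [Fintype.card_piFinset]
    simp only [hT, prod_const, card_univ, Fintype.card_fin]
  obtain ⟨e, e1, her⟩ := exists_codeB hK (Fintype.piFinset T) (hcT T hT)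
  obtain ⟨e', e1', her'⟩ := exists_codeB hK (Fintype.piFinset S) (hcT S hS)
  obtain ⟨f, V, A, B, N, h1⟩ := h Z E R ρ hgrp (fun z i j => κ z (e1 i) (e1' j))
    (fun z hz i j D => hκ z hz _ _ D) (fun z hz i j => hκd z hz _ _)
  refine ⟨f, fun z τ c => V z (e τ) (e' c),
    fun z Q c => A z ((Fintype.piFinset Q).image e) (e' c),
    fun z τ Q => B z (e τ) ((Fintype.piFinset Q).image e'),
    fun z τ Q c Q' => N z (e τ) ((Fintype.piFinset Q).image e) (e' c)
      ((Fintype.piFinset Q').image e'), ?_⟩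
  intro z hz
  obtain ⟨h2, h3, h4, h5, h6⟩ := h1 z hz
  refine ⟨h2, fun Q c k => h3 _ _ k, fun τ Q k => h4 _ _ k, fun τ c k => h5 _ _ k, ?_⟩
  intro τ Q c Q' a1 a2 a3 a4 a5 a6
  have h1' : τ ∈ Fintype.piFinset Q := Fintype.mem_piFinset.2 a1
  have h2' : c ∈ Fintype.piFinset Q' := Fintype.mem_piFinset.2 a2
  have hτT : τ ∈ Fintype.piFinset T := Fintype.mem_piFinset.2 (fun k => a3 k (a1 k))
  have hcS : c ∈ Fintype.piFinset S := Fintype.mem_piFinset.2 (fun k => a4 k (a2 k))
  have h7 := h6 (e τ) ((Fintype.piFinset Q).image e) (e' c) ((Fintype.piFinset Q').image e')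
    (mem_image_of_mem e h1') (mem_image_of_mem e' h2')
    (le_trans card_image_le (le_of_eq (hcL Q a5))) (le_trans card_image_le (le_of_eq (hcL Q' a6)))
  simp only [her τ hτT, her' c hcS] at h7
  exact h7

end Pool.Agent.Lib.MP_994fee_co.TwT
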