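import Pool.Agent.Lib.MP_994fee_co.TwT.Defs19

/-!
# Row SC: selection of the windows
-/

namespace Pool.Agent.Lib.MP_994fee_co.TwT

open Finset TwB

namespace SC78

theorem card_AI_le (M i : ℕ) : (AI M i).card ≤ M := by
  simp only [AI, Nat.card_Ico]
  omega

theorem card_rl_le {n : ℕ} (M : ℕ) (p : ℕ → ℕ) (w : Fin n → ℕ) (k : Fin n) :
    (rl M p (fun k => AI M (w k)) k).card ≤ M :=
  card_image_le.trans (card_AI_le M _)

theorem card_I (n M : ℕ) : Fintype.card (Fin n → Fin M) = M ^ n := by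
  rw [Fintype.card_fun, Fintype.card_fin, Fintype.card_fin]

/-- few windows `v` have many bad pairs -/
theorem few (hB : RowB) {n s L M D B d : ℕ} (hL : n * s < L)
    (hD : ∀ F : Finset (Fin n → Fin M), ¬ HasBox L (fun x => x ∈ F) → F.card ≤ D)
    (hnum : 2 ^ (d + 1) * (D * ((2 * M) ^ n) ^ 2) ≤ (B + 1) * M ^ n)
    (g : Gs n) (p : ℕ → ℕ) (hg : GsOK s g) (hp : StrictMono p) (hh : Hom M g p)
    (F : Finset (Fin n → Fin M))
    (hF : ∀ v ∈ F, ∃ G : Finset ((Fin n → Fin M) × (Fin n → Fin M)), B < G.card ∧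
      ∀ x ∈ G, BadW L M g p x.1 x.2 v) :
    2 ^ (d + 1) * F.card ≤ M ^ n := by
  classical
  have hF' : ∀ v : Fin n → Fin M, ∃ G : Finset ((Fin n → Fin M) × (Fin n → Fin M)),
      v ∈ F → B < G.card ∧ ∀ x ∈ G, BadW L M g p x.1 x.2 v := by
    intro v
    by_cases hv : v ∈ F
    · obtain ⟨G, hG⟩ := hF v hv
      exact ⟨G, fun _ => hG⟩
    · exact ⟨∅, fun h => absurd h hv⟩
  choose G hG using hF'
  -- the set of all bad triples over F
  let T : Finset ((Fin n → Fin M) × (Fin n → Fin M) × (Fin n → Fin M)) :=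
    (F.sigma (fun v => G v)).image (fun x => (x.2.1, x.2.2, x.1))
  have hTcard : T.card = ∑ v ∈ F, (G v).card := by
    rw [← card_sigma]
    apply card_image_of_injective
    rintro ⟨v, a, b⟩ ⟨v', a', b'⟩ h
    simp only [Prod.mk.injEq] at h
    obtain ⟨rfl, rfl, rfl⟩ := h
    rfl
  have h1 : T.card ≤ D * ((2 * M) ^ n) ^ 2 := by
    apply hB n s L M D hL hD g p hg hp hh
    intro x hx
    obtain ⟨⟨v, y⟩, hy, rfl⟩ := mem_image.1 hx
    rw [mem_sigma] at hy
    exact (hG v hy.1).2 y hy.2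
  have h2 : (B + 1) * F.card ≤ T.card := by
    rw [hTcard, mul_comm, ← smul_eq_mul, ← sum_const]
    exact sum_le_sum (fun v hv => (hG v hv).1)
  have h3 : (B + 1) * (2 ^ (d + 1) * F.card) ≤ (B + 1) * M ^ n := by
    calc (B + 1) * (2 ^ (d + 1) * F.card) = 2 ^ (d + 1) * ((B + 1) * F.card) := by ring
      _ ≤ 2 ^ (d + 1) * (D * ((2 * M) ^ n) ^ 2) := Nat.mul_le_mul_left _ (h2.trans h1)
      _ ≤ _ := hnum
  exact Nat.le_of_mul_le_mul_left h3 (Nat.succ_pos B)

/-- the windows seen by the siblings, as numbers -/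
def nv {n M : ℕ} (v : ℕ → Fin n → Fin M) : ℕ → Fin n → ℕ := fun u k => (v u k : ℕ)

end SC78

open SC78 in
/-- ROW SC. -/
theorem rowSC78 : RowP → RowH → RowB → RowN → RowSC := by
  classical
  intro hP hH hB hN n s d r0
  obtain ⟨M, D, B, r, hLM, hpar, hnum, hD⟩ := hN n (n * s + 1) d
  obtain ⟨q, hq⟩ := hP n M (M ^ n) d r0
  refine ⟨M, q + 1, hLM, Nat.succ_pos _, ?_⟩
  intro Z E R ρ hG κ hκ hdep
  obtain ⟨p, hp, hpq, hom⟩ := hq Z E R ρ hG κ hdep
  have hM : 0 < M := by omega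
  have : Nonempty (Fin n → Fin M) := ⟨fun _ => ⟨0, hM⟩⟩
  have hEz : ∀ z ∈ Z, ¬ E z z := fun z hz h => hG.2.2.2.1 z hz z hz (Or.inl h) rfl
  -- dependence of the guesses on the windows
  have hdat : ∀ z ∈ Z, ∀ τ c, ∀ v v' : ℕ → Fin n → Fin M, (∀ u ∈ Z, E z u → v u = v' u) →
      κ z τ c (dat M p (nv v)) = κ z τ c (dat M p (nv v')) := by
    intro z hz τ c v v' h
    apply hdep z hz τ c
    · intro u hu hzu
      simp only [dat, nv, h u hu hzu]
    · intro u hu _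
      rfl
  -- the local choice
  have hv : ∀ τ c : Fin (M ^ n), ∃ v : ℕ → Fin n → Fin M, ∀ z ∈ Z,
      ¬ ∃ G : Finset ((Fin n → Fin M) × (Fin n → Fin M)), B < G.card ∧
        ∀ x ∈ G, BadW (n * s + 1) M (κ z τ c (dat M p (nv v))) (p z) x.1 x.2 (v z) := by
    intro τ c
    refine hH (I := Fin n → Fin M) d Z E hG.1 hG.2.1
      (fun z v => ∃ G : Finset ((Fin n → Fin M) × (Fin n → Fin M)), B < G.card ∧
        ∀ x ∈ G, BadW (n * s + 1) M (κ z τ c (dat M p (nv v))) (p z) x.1 x.2 (v z)) ?_ ?_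
    · intro z hz v v' h1 h2 h3
      obtain ⟨G, hG1, hG2⟩ := h3
      refine ⟨G, hG1, ?_⟩
      rw [← hdat z hz τ c v v' h2, ← h1]
      exact hG2
    · intro z hz v F hF
      rw [card_I]
      refine few hB (Nat.lt_succ_self _) hD hnum (κ z τ c (dat M p (nv v))) (p z) (hκ z hz τ c _)
        (hp z) (hom z hz τ c (nv v) (fun u k => (v u k).2)) F ?_
      intro i hi
      obtain ⟨G, hG1, hG2⟩ := hF i hi
      refine ⟨G, hG1, ?_⟩
      have h4 := hdat z hz τ c (Function.update v z i) v (by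
        intro u hu hzu
        rw [Function.update_of_ne]
        rintro rfl
        exact hEz u hz hzu)
      rw [h4, Function.update_self] at hG2
      exact hG2
  choose v hv using hv
  -- the windows for the parents
  have hXY : ∀ z : ℕ, ∃ (X : Finset (Fin (M ^ n)) → Fin (M ^ n) → (Fin n → Fin M))
      (Y : Fin (M ^ n) → Finset (Fin (M ^ n)) → (Fin n → Fin M)), z ∈ Z →
      ∀ (P Q : Finset (Fin (M ^ n))), P.card ≤ (n * s + 1) ^ n → Q.card ≤ (n * s + 1) ^ n →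
        ∀ τ ∈ P, ∀ c ∈ Q, ¬ BadW (n * s + 1) M (κ z τ c (dat M p (nv (v τ c)))) (p z)
          (X P c) (Y τ Q) (v τ c z) := by
    intro z
    by_cases hz : z ∈ Z
    · obtain ⟨X, Y, h⟩ := exists_choiceB (S := Fin (M ^ n)) (T := Fin (M ^ n))
        (I := Fin n → Fin M) (M ^ n) B ((n * s + 1) ^ n) r (by rw [Fintype.card_fin])
        (by rw [Fintype.card_fin]) (by rw [card_I]; exact hpar)
        (fun τ c i j => BadW (n * s + 1) M (κ z τ c (dat M p (nv (v τ c)))) (p z) i j (v τ c z))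
        (by
          intro τ c F hF
          by_contra hcon
          exact hv τ c z hz ⟨F, by omega, hF⟩)
      exact ⟨X, Y, fun _ => h⟩
    · exact ⟨fun _ _ => fun _ => ⟨0, hM⟩, fun _ _ => fun _ => ⟨0, hM⟩, fun h => absurd h hz⟩
  choose X Y hXY using hXY
  have hNN : ∀ (z : ℕ) (τ : Fin (M ^ n)) (P : Finset (Fin (M ^ n))) (c : Fin (M ^ n))
      (Q : Finset (Fin (M ^ n))), ∃ N : Bx n, z ∈ Z → τ ∈ P → c ∈ Q →
      P.card ≤ (n * s + 1) ^ n → Q.card ≤ (n * s + 1) ^ n →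
      (∀ k, N k ⊆ AI M (X z P c k) ∧ N k ⊆ AI M (Y z τ Q k) ∧ N k ⊆ AI M (v τ c z k) ∧
        (N k).card = n * s + 1 ∧ M ∈ N k) ∧
      ∀ k, p z (pos M k M) ∉ κ z τ c (dat M p (nv (v τ c)))
        (rl M (p z) (fun k => AI M (X z P c k))) (rl M (p z) (fun k => AI M (Y z τ Q k)))
        (rl M (p z) (fun k => AI M (v τ c z k))) (rl M (p z) N)
        (fun k => p z (pos M k M)) k := by
    intro z τ P c Q
    by_cases h : z ∈ Z ∧ τ ∈ P ∧ c ∈ Q ∧ P.card ≤ (n * s + 1) ^ n ∧ Q.card ≤ (n * s + 1) ^ n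
    · obtain ⟨hz, h1, h2, h3, h4⟩ := h
      have h5 := hXY z hz P Q h3 h4 τ h1 c h2
      simp only [BadW] at h5
      push Not at h5
      obtain ⟨N, h6, h7⟩ := h5
      exact ⟨N, fun _ _ _ _ _ => ⟨h6, h7⟩⟩
    · exact ⟨fun _ => ∅, fun h0 h1 h2 h3 h4 => absurd ⟨h0, h1, h2, h3, h4⟩ h⟩
  choose N hN' using hNN
  have hpos : ∀ z (k : Fin n), Function.Injective (fun x => p z (pos M k x)) := by
    intro z k x y hxy
    have := (hp z).injective hxy
    simp only [pos] at this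
    omega
  refine ⟨fun z k => p z (pos M k M),
    fun z τ c => rl M (p z) (fun k => AI M (v τ c z k)),
    fun z P c => rl M (p z) (fun k => AI M (X z P c k)),
    fun z τ Q => rl M (p z) (fun k => AI M (Y z τ Q k)),
    fun z τ P c Q => rl M (p z) (N z τ P c Q), ?_⟩
  intro z hz
  refine ⟨?_, fun Q c k => card_rl_le M (p z) _ k, fun τ Q k => card_rl_le M (p z) _ k,
    fun τ c k => card_rl_le M (p z) _ k, ?_⟩
  · intro k
    refine Nat.lt_succ_of_lt (hpq z hz _ ?_)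
    have h1 : (k : ℕ) + 1 ≤ n := k.2
    calc pos M k M = (k : ℕ) * (4 * M + 4) + M := rfl
      _ < ((k : ℕ) + 1) * (4 * M + 4) := by rw [add_mul]; omega
      _ ≤ n * (4 * M + 4) := Nat.mul_le_mul_right _ h1
  · intro τ Q c Q' h1 h2 h3 h4
    obtain ⟨h5, h6⟩ := hN' z τ Q c Q' hz h1 h2 h3 h4
    refine ⟨fun k => ?_, h6⟩
    obtain ⟨h7, h8, h9, h10, h11⟩ := h5 k
    refine ⟨mem_image_of_mem _ h11, ?_, image_subset_image h7, image_subset_image h8,
      image_subset_image h9⟩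
    simp only [rl]
    rw [card_image_of_injective _ (hpos z k), h10]

end Pool.Agent.Lib.MP_994fee_co.TwT
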